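import Mathlib

set_option autoImplicit false

/-! Places and decomposition groups for the elementary type project (section 0). -/

namespace Pool.Agent.ETC

/-- `K = F(p)`: `K/F` is a Galois `p`-extension and `K` has all `p`-th roots -/
structure PCl (p : ℕ) (F K : Type) [Field F] [Field K] [Algebra F K] : Prop where
  gal : IsGalois F K
  root : ∀ x : K, ∃ y : K, y ^ p = x
  pgp : ∀ L : IntermediateField F K, FiniteDimensional F L → IsGalois F L →
    ∃ k : ℕ, Module.finrank F L = p ^ k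

section field

variable {F : Type} [Field F]

/-- `1 - ζ` is a unit in every proper overring of `R` -/
def Top (ζ : F) (R : ValuationSubring F) : Prop :=
  ∀ S : ValuationSubring F, R < S → (1 - ζ)⁻¹ ∈ S

/-- `|x| < |1 - ζ|^p` -/
def Sm (p : ℕ) (ζ : F) (R : ValuationSubring F) (x : F) : Prop :=
  R.valuation x < R.valuation (1 - ζ) ^ p

/-- the group `T(R) = F*^p (1 + D(R))`, `D(R) = {x : |x| < |1 - ζ|^p}` -/
def TR (p : ℕ) (ζ : F) (R : ValuationSubring F) : Subgroup Fˣ :=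
  (powMonoidHom p : Fˣ →* Fˣ).range ⊔ Subgroup.closure {u : Fˣ | Sm p ζ R ((u : F) - 1)}

/-- the decomposition group of `V` -/
def Dec (F : Type) [Field F] {K : Type} [Field K] [Algebra F K] (V : ValuationSubring K) :
    Subgroup (K ≃ₐ[F] K) where
  carrier := {σ | ∀ x : K, σ x ∈ V ↔ x ∈ V}
  one_mem' := fun _ => Iff.rfl
  mul_mem' := fun {σ τ} hσ hτ x => (hσ (τ x)).trans (hτ x)
  inv_mem' := fun {σ} hσ x => by
    have h := hσ (σ⁻¹ x)
    rw [← AlgEquiv.mul_apply, mul_inv_cancel, AlgEquiv.one_apply] at h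
    exact h.symm

lemma mem_Dec {K : Type} [Field K] [Algebra F K] {V : ValuationSubring K} {σ : K ≃ₐ[F] K} :
    σ ∈ Dec F V ↔ ∀ x : K, σ x ∈ V ↔ x ∈ V := Iff.rfl

variable {p : ℕ} {ζ : F} {R : ValuationSubring F}

lemma root_mem (hp : p ≠ 0) (hζ : ζ ^ p = 1) (R : ValuationSubring F) : ζ ∈ R := by
  rw [← ValuationSubring.valuation_le_one_iff]
  by_contra h
  rw [not_le] at h
  have h1 := one_lt_pow₀ h hp
  rw [← map_pow, hζ, map_one] at h1
  exact lt_irrefl _ h1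

lemma lam_le (hp : p ≠ 0) (hζ : ζ ^ p = 1) (R : ValuationSubring F) :
    R.valuation (1 - ζ) ≤ 1 :=
  (R.valuation_le_one_iff _).2 (sub_mem R.one_mem (root_mem hp hζ R))

lemma Sm.lt_one (hp : p ≠ 0) (hζ : ζ ^ p = 1) {x : F} (hx : Sm p ζ R x) :
    R.valuation x < 1 :=
  lt_of_lt_of_le hx (pow_le_one' (lam_le hp hζ R) p)

lemma sm_add {x y : F} (hx : Sm p ζ R x) (hy : Sm p ζ R y) : Sm p ζ R (x + y) :=
  lt_of_le_of_lt (R.valuation.map_add x y) (max_lt hx hy)

lemma sm_neg {x : F} (hx : Sm p ζ R x) : Sm p ζ R (-x) := by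
  unfold Sm
  rwa [Valuation.map_neg]

lemma sm_sub {x y : F} (hx : Sm p ζ R x) (hy : Sm p ζ R y) : Sm p ζ R (x - y) := by
  rw [sub_eq_add_neg]
  exact sm_add hx (sm_neg hy)

lemma sm_mul {x y : F} (hx : Sm p ζ R x) (hy : R.valuation y ≤ 1) : Sm p ζ R (x * y) := by
  unfold Sm
  rw [map_mul]
  exact lt_of_le_of_lt (mul_le_of_le_one_right' hy) hx

lemma sm_zero (hζ : ζ ≠ 1) : Sm p ζ R 0 := by
  unfold Sm
  rw [map_zero]
  exact zero_lt_iff.2 (pow_ne_zero _ ((Valuation.ne_zero_iff _).2 (sub_ne_zero.2 hζ.symm)))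

lemma val_one_add {x : F} (hx : R.valuation x < 1) : R.valuation (1 + x) = 1 :=
  R.valuation.map_one_add_of_lt hx

/-- the one-units of level `|1 - ζ|^p` -/
lemma sm_mul_one {u v : F} (hp : p ≠ 0) (hζ : ζ ^ p = 1) (hu : Sm p ζ R (u - 1))
    (hv : Sm p ζ R (v - 1)) : Sm p ζ R (u * v - 1) := by
  have e : u * v - 1 = (u - 1) * v + (v - 1) := by ring
  rw [e]
  refine sm_add (sm_mul hu ?_) hv
  have := val_one_add (hv.lt_one hp hζ)
  rw [add_sub_cancel] at this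
  exact this.le

lemma sm_inv_one {u : F} (hp : p ≠ 0) (hζ : ζ ^ p = 1) (hu : Sm p ζ R (u - 1)) :
    Sm p ζ R (u⁻¹ - 1) := by
  have h1 := val_one_add (hu.lt_one hp hζ)
  rw [add_sub_cancel] at h1
  have h0 : u ≠ 0 := by
    rintro rfl
    rw [map_zero] at h1
    exact zero_ne_one h1
  have e : u⁻¹ - 1 = -((u - 1) * u⁻¹) := by field_simp; ring
  rw [e]
  refine sm_neg (sm_mul hu ?_)
  rw [map_inv₀, h1, inv_one]

lemma mem_closure_one (hp : p ≠ 0) (hζ : ζ ^ p = 1) (hζ1 : ζ ≠ 1) {u : Fˣ} :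
    u ∈ Subgroup.closure {u : Fˣ | Sm p ζ R ((u : F) - 1)} ↔ Sm p ζ R ((u : F) - 1) := by
  constructor
  · intro h
    induction h using Subgroup.closure_induction with
    | mem x hx => exact hx
    | one => rw [Units.val_one, sub_self]; exact sm_zero hζ1
    | mul x y _ _ hx hy => rw [Units.val_mul]; exact sm_mul_one hp hζ hx hy
    | inv x _ hx => rw [Units.val_inv_eq_inv_val]; exact sm_inv_one hp hζ hx
  · exact fun h => Subgroup.subset_closure h

lemma mem_TR (hp : p ≠ 0) (hζ : ζ ^ p = 1) (hζ1 : ζ ≠ 1) {t : Fˣ} :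
    t ∈ TR p ζ R ↔ ∃ (f : Fˣ) (x : F), Sm p ζ R x ∧ (t : F) = (f : F) ^ p * (1 + x) := by
  unfold TR
  rw [Subgroup.mem_sup]
  constructor
  · rintro ⟨_, ⟨f, rfl⟩, u, hu, rfl⟩
    rw [mem_closure_one hp hζ hζ1] at hu
    exact ⟨f, (u : F) - 1, hu, by simp⟩
  · rintro ⟨f, x, hx, ht⟩
    have h1 := val_one_add (hx.lt_one hp hζ)
    have h0 : (1 + x) ≠ 0 := by
      intro h
      rw [h, map_zero] at h1
      exact zero_ne_one h1
    refine ⟨f ^ p, ⟨f, rfl⟩, Units.mk0 _ h0, ?_, ?_⟩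
    · rw [mem_closure_one hp hζ hζ1]
      simpa using hx
    · ext
      simp [ht]

end field

end Pool.Agent.ETC
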