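import Mathlib
import Pool.Agent.Helper66.ETC.Defs

set_option autoImplicit false

/-! The conjugates of a valuation ring in a cyclic extension of prime degree: approximation. -/

namespace Pool.Agent.ETC

lemma over_total {M : Type} [Field M] {P S T : ValuationSubring M} (hS : P ≤ S) (hT : P ≤ T) :
    S ≤ T ∨ T ≤ S := by
  have := le_total (⟨S, hS⟩ : {S // P ≤ S}) ⟨T, hT⟩
  exact this

section

variable {F M : Type} [Field F] [Field M] [Algebra F M]

/-- the conjugate ring `{w : s w ∈ P}` -/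
def cj (s : M ≃ₐ[F] M) (P : ValuationSubring M) : ValuationSubring M := P.comap (s : M →+* M)

lemma mem_cj {s : M ≃ₐ[F] M} {P : ValuationSubring M} {x : M} : x ∈ cj s P ↔ s x ∈ P := Iff.rfl

lemma val_lt_iff (P : ValuationSubring M) {x y : M} (hy : y ≠ 0) :
    P.valuation x < P.valuation y ↔ y / x ∉ P ∨ x = 0 := by
  by_cases hx : x = 0
  · subst hx
    rw [map_zero]
    exact ⟨fun _ => Or.inr rfl, fun _ => zero_lt_iff.2 ((Valuation.ne_zero_iff _).2 hy)⟩
  · have h0 : 0 < P.valuation x := zero_lt_iff.2 ((Valuation.ne_zero_iff _).2 hx)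
    rw [← ValuationSubring.valuation_le_one_iff, map_div₀, div_le_one₀ h0, not_le]
    exact ⟨Or.inl, fun h => h.resolve_right hx⟩

/-- invariance of comparable rings under an automorphism of finite order -/
lemma inv_of_le {τ : M ≃ₐ[F] M} {n : ℕ} (hn : 0 < n) (hτ : τ ^ n = 1) {S : ValuationSubring M}
    (h : S ≤ cj τ S ∨ cj τ S ≤ S) (x : M) : τ x ∈ S ↔ x ∈ S := by
  have hx : ∀ x : M, (τ ^ (n - 1)) (τ x) = x := by
    intro x
    rw [← AlgEquiv.mul_apply, ← pow_succ, Nat.sub_add_cancel hn, hτ, AlgEquiv.one_apply]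
  rcases h with h | h
  · have h1 : ∀ (k : ℕ) (x : M), x ∈ S → (τ ^ k) x ∈ S := by
      intro k
      induction k with
      | zero => intro x hx; simpa using hx
      | succ k ih =>
        intro x hx
        rw [pow_succ', AlgEquiv.mul_apply]
        exact h (ih x hx)
    refine ⟨fun h2 => ?_, fun h2 => h h2⟩
    have := h1 (n - 1) _ h2
    rwa [hx] at this
  · have h1 : ∀ (k : ℕ) (x : M), (τ ^ k) x ∈ S → x ∈ S := by
      intro k
      induction k with
      | zero => intro x hx; simpa using hx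
      | succ k ih =>
        intro x hx
        rw [pow_succ', AlgEquiv.mul_apply] at hx
        exact ih x (h hx)
    refine ⟨fun h2 => h h2, fun h2 => ?_⟩
    apply h1 (n - 1)
    rwa [hx]

lemma invar_pow {τ : M ≃ₐ[F] M} {S : ValuationSubring M} (h : ∀ x : M, τ x ∈ S ↔ x ∈ S) (k : ℕ)
    (x : M) : (τ ^ k) x ∈ S ↔ x ∈ S := by
  induction k generalizing x with
  | zero => simp
  | succ k ih => rw [pow_succ, AlgEquiv.mul_apply, ih, h]

variable {s : M ≃ₐ[F] M} {P : ValuationSubring M} {p : ℕ}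

lemma pow_gen (hp : p.Prime) (hs : s ^ p = 1) {j : ℕ} (hj : 0 < j) (hjp : j < p) :
    ∃ m : ℕ, (s ^ j) ^ m = s := by
  have hcop : Nat.Coprime j p :=
    (Nat.Coprime.symm ((Nat.Prime.coprime_iff_not_dvd hp).2 (Nat.not_dvd_of_pos_of_lt hj hjp)))
  obtain ⟨m, -, hm⟩ := Nat.exists_mul_mod_eq_one_of_coprime hcop hp.one_lt
  refine ⟨m, ?_⟩
  rw [← pow_mul, ← Nat.div_add_mod (j * m) p, hm, pow_add, pow_mul, hs, one_pow, one_mul, pow_one]

lemma inv_s (hp : p.Prime) (hs : s ^ p = 1) {j : ℕ} (hj : 0 < j) (hjp : j < p)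
    {S : ValuationSubring M} (h : ∀ x : M, (s ^ j) x ∈ S ↔ x ∈ S) (x : M) : s x ∈ S ↔ x ∈ S := by
  obtain ⟨m, hm⟩ := pow_gen hp hs hj hjp
  conv_lhs => rw [← hm]
  exact invar_pow h m x

lemma pow_pow_one (hs : s ^ p = 1) (j : ℕ) : (s ^ j) ^ p = 1 := by
  rw [← pow_mul, mul_comm, pow_mul, hs, one_pow]

/-- the rings `P` and `s^j P` are not comparable -/
lemma not_le_cj (hp : p.Prime) (hs : s ^ p = 1) (hP : ¬ ∀ x : M, s x ∈ P ↔ x ∈ P) {j : ℕ}
    (hj : 0 < j) (hjp : j < p) : ¬ P ≤ cj (s ^ j) P ∧ ¬ cj (s ^ j) P ≤ P := by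
  constructor
  · intro h
    exact hP (inv_s hp hs hj hjp (inv_of_le hp.pos (pow_pow_one hs j) (Or.inl h)))
  · intro h
    exact hP (inv_s hp hs hj hjp (inv_of_le hp.pos (pow_pow_one hs j) (Or.inr h)))

lemma join_inv (hp : p.Prime) (hs : s ^ p = 1) {j : ℕ} (hj : 0 < j) (hjp : j < p) (x : M) :
    s x ∈ P ⊔ cj (s ^ j) P ↔ x ∈ P ⊔ cj (s ^ j) P := by
  refine inv_s hp hs hj hjp (inv_of_le hp.pos (pow_pow_one hs j) ?_) x
  refine over_total (P := cj (s ^ j) P) le_sup_right ?_
  intro y hy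
  exact (le_sup_left : P ≤ P ⊔ cj (s ^ j) P) hy

/-- all joins are equal -/
lemma join_le (hp : p.Prime) (hs : s ^ p = 1) {j : ℕ} (hj : 0 < j) (hjp : j < p) :
    P ⊔ cj s P ≤ P ⊔ cj (s ^ j) P := by
  refine sup_le le_sup_left ?_
  intro y hy
  rw [← join_inv hp hs hj hjp]
  exact (le_sup_left : P ≤ P ⊔ cj (s ^ j) P) hy

/-- units of `Q` -/
def UQ (Q : ValuationSubring M) (x : M) : Prop := x ≠ 0 ∧ x ∈ Q ∧ x⁻¹ ∈ Q

lemma UQ.mul {Q : ValuationSubring M} {x y : M} (hx : UQ Q x) (hy : UQ Q y) : UQ Q (x * y) :=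
  ⟨mul_ne_zero hx.1 hy.1, Q.mul_mem _ _ hx.2.1 hy.2.1, by
    rw [mul_inv]; exact Q.mul_mem _ _ hx.2.2 hy.2.2⟩

lemma UQ.inv {Q : ValuationSubring M} {x : M} (hx : UQ Q x) : UQ Q x⁻¹ :=
  ⟨inv_ne_zero hx.1, hx.2.2, by rw [inv_inv]; exact hx.2.1⟩

lemma UQ.div {Q : ValuationSubring M} {x y : M} (hx : UQ Q x) (hy : UQ Q y) : UQ Q (x / y) := by
  rw [div_eq_mul_inv]; exact hx.mul hy.inv

lemma UQ.one (Q : ValuationSubring M) : UQ Q 1 := ⟨one_ne_zero, Q.one_mem, by
  rw [inv_one]; exact Q.one_mem⟩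

lemma UQ.of_le {Q P : ValuationSubring M} (h : P ≤ Q) {x : M} (hx : P.valuation x = 1) :
    UQ Q x := by
  have h0 : x ≠ 0 := by
    rintro rfl
    rw [map_zero] at hx
    exact zero_ne_one hx
  refine ⟨h0, h ?_, h ?_⟩
  · rw [← ValuationSubring.valuation_le_one_iff, hx]
  · rw [← ValuationSubring.valuation_le_one_iff, map_inv₀, hx, inv_one]

lemma UQ.app {Q : ValuationSubring M} {τ : M ≃ₐ[F] M} (h : ∀ x : M, τ x ∈ Q ↔ x ∈ Q) {x : M} :
    UQ Q (τ x) ↔ UQ Q x := by
  unfold UQ
  rw [← map_inv₀, h, h, ne_eq, ne_eq, map_eq_zero_iff τ τ.injective]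

/-- `P` and its conjugates are independent over the join `Q` -/
lemma indep (hp : p.Prime) (hs : s ^ p = 1) (hP : ¬ ∀ x : M, s x ∈ P ↔ x ∈ P) {j : ℕ}
    (hj : 0 < j) (hjp : j < p) {Q : ValuationSubring M} (hQ : Q ≤ P ⊔ cj (s ^ j) P)
    (hPQ : P ≤ Q) (hinv : ∀ x : M, s x ∈ Q ↔ x ∈ Q) {a b : M} (ha : UQ Q a) (hb : UQ Q b) :
    ∃ x : M, UQ Q x ∧ P.valuation x ≤ P.valuation a ∧
      P.valuation b < P.valuation ((s ^ j) x) := by
  have key : ∃ x : M, P.valuation x ≤ P.valuation a ∧ P.valuation b < P.valuation ((s ^ j) x) := by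
    by_contra hcon
    push Not at hcon
    have ha0 : P.valuation ((s ^ j) a) ≠ 0 :=
      (Valuation.ne_zero_iff _).2 (by rw [ne_eq, map_eq_zero_iff _ (s ^ j).injective]; exact ha.1)
    obtain ⟨d, hd⟩ : ∃ d : M, d = b / (s ^ j) a := ⟨_, rfl⟩
    have hdQ : UQ Q d := by
      rw [hd]
      exact hb.div ((UQ.app (invar_pow hinv j)).2 ha)
    -- the ring of all `z` whose powers are bounded at `j`
    let B : Subring M :=
      { carrier := {z | ∀ n : ℕ, P.valuation ((s ^ j) z) ^ n ≤ max 1 (P.valuation d)}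
        one_mem' := fun n => by
          rw [map_one, map_one, one_pow]
          exact le_max_left _ _
        zero_mem' := fun n => by
          rw [map_zero, map_zero]
          exact le_trans (pow_le_one' zero_le_one n) (le_max_left _ _)
        mul_mem' := fun {z w} hz hw n => by
          rw [map_mul, map_mul, mul_pow]
          rcases le_total (P.valuation ((s ^ j) z)) (P.valuation ((s ^ j) w)) with h | h
          · refine le_trans (mul_le_mul_left (pow_le_pow_left' h n) _) ?_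
            rw [← pow_add]
            exact hw _
          · refine le_trans (mul_le_mul_right (pow_le_pow_left' h n) _) ?_
            rw [← pow_add]
            exact hz _
        add_mem' := fun {z w} hz hw n => by
          rw [map_add]
          refine le_trans (pow_le_pow_left' (P.valuation.map_add _ _) n) ?_
          rcases le_total (P.valuation ((s ^ j) z)) (P.valuation ((s ^ j) w)) with h | h
          · rw [max_eq_right h]
            exact hw n
          · rw [max_eq_left h]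
            exact hz n
        neg_mem' := fun {z} hz n => by
          rw [map_neg, Valuation.map_neg]
          exact hz n }
    have hB : ∀ z : M, z ∈ B ↔ ∀ n : ℕ, P.valuation ((s ^ j) z) ^ n ≤ max 1 (P.valuation d) :=
      fun _ => Iff.rfl
    have h1 : P.toSubring ≤ B := by
      intro z hz n
      have hz' : P.valuation z ≤ 1 := (P.valuation_le_one_iff _).2 hz
      have h2 := hcon (a * z ^ n) (by
        rw [map_mul, map_pow]
        exact mul_le_of_le_one_right' (pow_le_one' hz' n))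
      rw [map_mul, map_mul, map_pow, map_pow] at h2
      refine le_trans ?_ (le_max_right _ _)
      rw [hd, map_div₀, le_div_iff₀ (zero_lt_iff.2 ha0), mul_comm]
      exact h2
    have h2 : (cj (s ^ j) P).toSubring ≤ B := by
      intro z hz n
      have hz' : P.valuation ((s ^ j) z) ≤ 1 := (P.valuation_le_one_iff _).2 hz
      exact le_trans (pow_le_one' hz' n) (le_max_left _ _)
    have h3 : ∀ z : M, z ∈ Q → z ∈ B := by
      intro z hz
      have h4 : (P.toSubring ⊔ (cj (s ^ j) P).toSubring : Subring M) ≤ B := sup_le h1 h2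
      exact h4 (hQ hz)
    -- `|d| ≤ 1`
    have h4 : P.valuation d ≤ 1 := by
      by_contra h4
      rw [not_le] at h4
      have h5 : (s ^ j).symm d ∈ Q := by
        rw [← invar_pow hinv j, AlgEquiv.apply_symm_apply]
        exact hdQ.2.1
      have h6 := (hB _).1 (h3 _ h5) 2
      rw [AlgEquiv.apply_symm_apply, max_eq_right h4.le, pow_two] at h6
      have h7 : P.valuation d < P.valuation d * P.valuation d :=
        lt_mul_of_one_lt_right (lt_trans zero_lt_one h4) h4
      exact absurd h6 (not_le.2 h7)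
    apply (not_le_cj hp hs hP hj hjp).1
    intro z hz
    rw [mem_cj, ← ValuationSubring.valuation_le_one_iff]
    have h5 := (hB _).1 (h1 hz) 1
    rwa [pow_one, max_eq_left h4] at h5
  obtain ⟨x, hx1, hx2⟩ := key
  have hx0 : x ≠ 0 := by
    rintro rfl
    rw [map_zero, map_zero] at hx2
    exact not_lt_zero' hx2
  have hxa : x / a ∈ Q := by
    apply hPQ
    rw [← ValuationSubring.valuation_le_one_iff, map_div₀]
    exact div_le_one_of_le₀ hx1 zero_le'
  have hbx : b / (s ^ j) x ∈ Q := by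
    apply hPQ
    rw [← ValuationSubring.valuation_le_one_iff, map_div₀]
    exact div_le_one_of_le₀ hx2.le zero_le'
  refine ⟨x, ⟨hx0, ?_, ?_⟩, hx1, hx2⟩
  · rw [← div_mul_cancel₀ x ha.1]
    exact Q.mul_mem _ _ hxa ha.2.1
  · rw [← invar_pow hinv j, map_inv₀]
    have e : ((s ^ j) x)⁻¹ = b⁻¹ * (b / (s ^ j) x) := by
      rw [div_eq_mul_inv, ← mul_assoc, inv_mul_cancel₀ hb.1, one_mul]
    rw [e]
    exact Q.mul_mem _ _ hb.2.2 hbx

/-- an element which is large at `P` and small at the conjugates -/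
lemma large (hp : p.Prime) (hs : s ^ p = 1) (hP : ¬ ∀ x : M, s x ∈ P ↔ x ∈ P)
    {Q : ValuationSubring M} (hQ : ∀ j : ℕ, 0 < j → j < p → Q ≤ P ⊔ cj (s ^ j) P)
    (hPQ : P ≤ Q) (hne : ¬ Q ≤ P) (hinv : ∀ x : M, s x ∈ Q ↔ x ∈ Q) (n : ℕ) (hn : n < p) :
    ∀ a : ℕ → M, (∀ j, UQ Q (a j)) → ∃ t : M, UQ Q t ∧ P.valuation (a 0) < P.valuation t ∧
      ∀ j : ℕ, 0 < j → j ≤ n → P.valuation ((s ^ j) t) < P.valuation (a j) := by
  obtain ⟨z, hzQ, hz⟩ : ∃ z : M, UQ Q z ∧ 1 < P.valuation z := by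
    obtain ⟨z, hz, hz'⟩ := Set.not_subset.1 hne
    have h1 : z⁻¹ ∈ P := (P.mem_or_inv_mem z).resolve_left hz'
    refine ⟨z, ⟨?_, hz, hPQ h1⟩, ?_⟩
    · rintro rfl
      exact hz' P.zero_mem
    · rw [← not_le, ValuationSubring.valuation_le_one_iff]
      exact hz'
  induction n with
  | zero =>
    intro a ha
    refine ⟨a 0 * z, (ha 0).mul hzQ, ?_, fun j h1 h2 => absurd h1 (not_lt.2 h2)⟩
    rw [map_mul]
    exact lt_mul_of_one_lt_right (zero_lt_iff.2 ((Valuation.ne_zero_iff _).2 (ha 0).1)) hz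
  | succ n ih =>
    intro a ha
    -- large at `0`, small at `n + 1`
    obtain ⟨x, hx, hx1, hx2⟩ := indep hp hs hP (Nat.succ_pos n) hn (hQ _ (Nat.succ_pos n) hn) hPQ
      hinv (((ha 0).mul hzQ).inv) ((ha (n + 1)).inv)
    have hxi : UQ Q x⁻¹ := hx.inv
    have hs0 : P.valuation (a 0) < P.valuation x⁻¹ := by
      rw [map_inv₀]
      rw [map_inv₀] at hx1
      have h0 : 0 < P.valuation (a 0 * z) :=
        zero_lt_iff.2 ((Valuation.ne_zero_iff _).2 (mul_ne_zero (ha 0).1 hzQ.1))
      have h0x : 0 < P.valuation x := zero_lt_iff.2 ((Valuation.ne_zero_iff _).2 hx.1)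
      have h2 : P.valuation (a 0 * z) ≤ (P.valuation x)⁻¹ := by
        rw [le_inv_comm₀ h0 h0x]
        exact hx1
      refine lt_of_lt_of_le ?_ h2
      rw [map_mul]
      exact lt_mul_of_one_lt_right (zero_lt_iff.2 ((Valuation.ne_zero_iff _).2 (ha 0).1)) hz
    have hsn : P.valuation ((s ^ (n + 1)) x⁻¹) < P.valuation (a (n + 1)) := by
      rw [map_inv₀, map_inv₀]
      rw [map_inv₀] at hx2
      have h0 : 0 < P.valuation (a (n + 1)) :=
        zero_lt_iff.2 ((Valuation.ne_zero_iff _).2 (ha (n + 1)).1)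
      have h0x : 0 < P.valuation ((s ^ (n + 1)) x) := lt_of_le_of_lt zero_le' hx2
      rw [inv_lt_comm₀ h0x h0]
      exact hx2
    -- the precision for the induction hypothesis
    let a' : ℕ → M := fun j =>
      if j = 0 then 1 else
        if P.valuation (a j / (s ^ j) x⁻¹) ≤ 1 then a j / (s ^ j) x⁻¹ else 1
    have ha' : ∀ j, UQ Q (a' j) := by
      intro j
      change UQ Q (if j = 0 then 1 else
        if P.valuation (a j / (s ^ j) x⁻¹) ≤ 1 then a j / (s ^ j) x⁻¹ else 1)
      split_ifs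
      · exact UQ.one Q
      · exact (ha j).div ((UQ.app (invar_pow hinv j)).2 hxi)
      · exact UQ.one Q
    obtain ⟨t, ht, ht0, htj⟩ := ih (Nat.lt_of_succ_lt hn) a' ha'
    have ht0' : 1 < P.valuation t := by
      have : a' 0 = 1 := if_pos rfl
      rwa [this, map_one] at ht0
    have htj' : ∀ j, 0 < j → j ≤ n → P.valuation ((s ^ j) t) < 1 ∧
        P.valuation ((s ^ j) t) * P.valuation ((s ^ j) x⁻¹) < P.valuation (a j) := by
      intro j hj hjn
      have h1 := htj j hj hjn
      have h2 : a' j = if P.valuation (a j / (s ^ j) x⁻¹) ≤ 1 then a j / (s ^ j) x⁻¹ else 1 :=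
        if_neg hj.ne'
      have h0 : 0 < P.valuation ((s ^ j) x⁻¹) := zero_lt_iff.2 ((Valuation.ne_zero_iff _).2
        ((UQ.app (invar_pow hinv j)).2 hxi).1)
      have h3 : P.valuation ((s ^ j) t) < 1 ∧
          P.valuation ((s ^ j) t) < P.valuation (a j / (s ^ j) x⁻¹) := by
        rw [h2] at h1
        split_ifs at h1 with h3
        · exact ⟨lt_of_lt_of_le h1 h3, h1⟩
        · rw [map_one] at h1
          exact ⟨h1, lt_trans h1 (not_le.1 h3)⟩
      refine ⟨h3.1, ?_⟩
      rw [← lt_div_iff₀ h0, ← map_div₀]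
      exact h3.2
    by_cases hc : P.valuation ((s ^ (n + 1)) t) ≤ 1
    · refine ⟨t * x⁻¹, ht.mul hxi, ?_, ?_⟩
      · rw [map_mul]
        refine lt_trans hs0 ?_
        exact lt_mul_of_one_lt_left (lt_of_le_of_lt zero_le' hs0) ht0'
      · intro j hj hjn
        rw [map_mul, map_mul]
        rcases Nat.lt_or_ge j (n + 1) with h | h
        · exact (htj' j hj (Nat.lt_succ_iff.1 h)).2
        · have : j = n + 1 := le_antisymm hjn h
          subst this
          exact lt_of_le_of_lt (mul_le_of_le_one_left' hc) hsn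
    · rw [not_le] at hc
      -- `e = t / (1 + t)`
      have hv : ∀ {w : M}, 1 < P.valuation w → P.valuation (1 + w) = P.valuation w := by
        intro w hw
        apply Valuation.map_add_eq_of_lt_right
        rwa [map_one]
      have h10 : P.valuation (1 + t) = P.valuation t := hv ht0'
      have h1t : (1 + t) ≠ 0 := by
        intro h
        rw [h, map_zero] at h10
        rw [← h10] at ht0'
        exact not_lt_zero' ht0'
      have hq : P.valuation (t / (1 + t)) = 1 := by
        rw [map_div₀, h10]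
        exact div_self (lt_trans zero_lt_one ht0').ne'
      refine ⟨t / (1 + t) * x⁻¹, (UQ.of_le hPQ hq).mul hxi, ?_, ?_⟩
      · rw [map_mul, hq, one_mul]
        exact hs0
      · intro j hj hjn
        rw [map_mul, map_mul, map_div₀, map_add, map_one, map_div₀]
        rcases Nat.lt_or_ge j (n + 1) with h | h
        · obtain ⟨h1, h2⟩ := htj' j hj (Nat.lt_succ_iff.1 h)
          have h3 : P.valuation (1 + (s ^ j) t) = 1 := P.valuation.map_one_add_of_lt h1
          rw [h3, div_one]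
          exact h2
        · have : j = n + 1 := le_antisymm hjn h
          subst this
          rw [hv hc, div_self (lt_trans zero_lt_one hc).ne', one_mul]
          exact hsn

/-- the value of `x / s x` at an invariant ring -/
lemma unit_ratio (hn : 0 < p) (hs : s ^ p = 1) {Q : ValuationSubring M}
    (hinv : ∀ x : M, s x ∈ Q ↔ x ∈ Q) {x : M} (hx : x ≠ 0) : UQ Q (x / s x) := by
  have hlt : ∀ a b : M, b ≠ 0 → (Q.valuation (s a) < Q.valuation (s b) ↔
      Q.valuation a < Q.valuation b) := by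
    intro a b hb
    have hb' : s b ≠ 0 := by rwa [ne_eq, map_eq_zero_iff s s.injective]
    rw [val_lt_iff Q hb', val_lt_iff Q hb, ← map_div₀, hinv, map_eq_zero_iff s s.injective]
  have hne : ∀ k : ℕ, (s ^ k) x ≠ 0 := fun k => by
    rwa [ne_eq, map_eq_zero_iff _ (s ^ k).injective]
  have h1 : ¬ Q.valuation x < Q.valuation (s x) := by
    intro h
    have h2 : ∀ k : ℕ, Q.valuation x < Q.valuation ((s ^ (k + 1)) x) := by
      intro k
      induction k with
      | zero => simpa using h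
      | succ k ih =>
        refine lt_trans h ?_
        rw [pow_succ' s (k + 1), AlgEquiv.mul_apply, hlt _ _ (hne _)]
        exact ih
    have h3 := h2 (p - 1)
    rw [Nat.sub_add_cancel hn, hs, AlgEquiv.one_apply] at h3
    exact lt_irrefl _ h3
  have h1' : ¬ Q.valuation (s x) < Q.valuation x := by
    intro h
    have h2 : ∀ k : ℕ, Q.valuation ((s ^ (k + 1)) x) < Q.valuation x := by
      intro k
      induction k with
      | zero => simpa using h
      | succ k ih =>
        refine lt_trans ?_ h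
        rw [pow_succ' s (k + 1), AlgEquiv.mul_apply, hlt _ _ hx]
        exact ih
    have h3 := h2 (p - 1)
    rw [Nat.sub_add_cancel hn, hs, AlgEquiv.one_apply] at h3
    exact lt_irrefl _ h3
  have he : Q.valuation x = Q.valuation (s x) := le_antisymm (not_lt.1 h1') (not_lt.1 h1)
  have h0 : Q.valuation (s x) ≠ 0 := by
    rw [← he]
    exact (Valuation.ne_zero_iff _).2 hx
  refine UQ.of_le le_rfl ?_
  rw [map_div₀, he, div_self h0]

/-- **one step**: if `P` is not invariant then every element is an element of the fixed field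
times `1 + m` with `|m| < |c|` -/
theorem step (hp : p.Prime) (hs : s ^ p = 1) (hP : ¬ ∀ x : M, s x ∈ P ↔ x ∈ P) {c : M}
    (hc0 : c ≠ 0) (hc1 : P.valuation c ≤ 1)
    (htop : ∀ S : ValuationSubring M, P < S → c⁻¹ ∈ S) {x : M} (hx : x ≠ 0) :
    ∃ f m : M, s f = f ∧ f ≠ 0 ∧ P.valuation m < P.valuation c ∧ x = f * (1 + m) := by
  obtain ⟨Q, hQdef⟩ : ∃ Q : ValuationSubring M, Q = P ⊔ cj (s ^ 1) P := ⟨_, rfl⟩
  have hp1 : 1 < p := hp.one_lt
  have hinv : ∀ x : M, s x ∈ Q ↔ x ∈ Q := by
    rw [hQdef]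
    exact join_inv hp hs one_pos hp1
  have hPQ : P ≤ Q := by rw [hQdef]; exact le_sup_left
  have hne : ¬ Q ≤ P := by
    intro h
    apply (not_le_cj hp hs hP one_pos hp1).2
    refine le_trans ?_ h
    rw [hQdef]
    exact le_sup_right
  have hQ : ∀ j : ℕ, 0 < j → j < p → Q ≤ P ⊔ cj (s ^ j) P := by
    intro j hj hjp
    rw [hQdef, pow_one]
    exact join_le hp hs hj hjp
  have hcQ : UQ Q c :=
    ⟨hc0, hPQ ((P.valuation_le_one_iff _).1 hc1), htop Q (lt_of_le_not_ge hPQ hne)⟩
  have hxj : ∀ j : ℕ, UQ Q (x / (s ^ j) x) := fun j =>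
    unit_ratio hp.pos (pow_pow_one hs j) (invar_pow hinv j) hx
  let a : ℕ → M := fun j => if j = 0 then c⁻¹ else
    if P.valuation (c * (x / (s ^ j) x)) ≤ 1 then c * (x / (s ^ j) x) else 1
  have ha : ∀ j, UQ Q (a j) := by
    intro j
    change UQ Q (if j = 0 then c⁻¹ else
      if P.valuation (c * (x / (s ^ j) x)) ≤ 1 then c * (x / (s ^ j) x) else 1)
    split_ifs
    · exact hcQ.inv
    · exact hcQ.mul (hxj j)
    · exact UQ.one Q
  obtain ⟨t, ht, ht0, htj⟩ := large hp hs hP hQ hPQ hne hinv (p - 1) (Nat.sub_lt hp.pos one_pos)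
    a ha
  have hvc : 0 < P.valuation c := zero_lt_iff.2 ((Valuation.ne_zero_iff _).2 hc0)
  have ht1 : P.valuation c⁻¹ < P.valuation t := by
    have : a 0 = c⁻¹ := if_pos rfl
    rwa [this] at ht0
  have ht2 : 1 < P.valuation t := by
    refine lt_of_le_of_lt ?_ ht1
    rw [map_inv₀, one_le_inv₀ hvc]
    exact hc1
  have h10 : P.valuation (1 + t) = P.valuation t := by
    apply Valuation.map_add_eq_of_lt_right
    rwa [map_one]
  have h1t : (1 + t) ≠ 0 := by
    intro h
    rw [h, map_zero] at h10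
    rw [← h10] at ht2
    exact not_lt_zero' ht2
  have htj' : ∀ j, 0 < j → j < p → P.valuation ((s ^ j) t) < 1 ∧
      P.valuation ((s ^ j) t * ((s ^ j) x / x)) < P.valuation c := by
    intro j hj hjn
    have h1 := htj j hj (Nat.le_pred_of_lt hjn)
    have h2 : a j = if P.valuation (c * (x / (s ^ j) x)) ≤ 1 then c * (x / (s ^ j) x) else 1 :=
      if_neg hj.ne'
    have h0 : (s ^ j) x / x ≠ 0 := by
      rw [← inv_div]
      exact inv_ne_zero (hxj j).1
    have h0' : 0 < P.valuation ((s ^ j) x / x) := zero_lt_iff.2 ((Valuation.ne_zero_iff _).2 h0)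
    have h3 : P.valuation ((s ^ j) t) < 1 ∧
        P.valuation ((s ^ j) t) < P.valuation (c * (x / (s ^ j) x)) := by
      rw [h2] at h1
      split_ifs at h1 with h3
      · exact ⟨lt_of_lt_of_le h1 h3, h1⟩
      · rw [map_one] at h1
        exact ⟨h1, lt_trans h1 (not_le.1 h3)⟩
    refine ⟨h3.1, ?_⟩
    have e : c = c * (x / (s ^ j) x) * ((s ^ j) x / x) := by
      rw [mul_assoc, div_mul_div_comm, mul_comm x, div_self, mul_one]
      intro h
      have := (hxj j).1
      apply this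
      rcases mul_eq_zero.1 h with h | h
      · rw [h, div_zero]
      · rw [h, zero_div]
    rw [map_mul]
    conv_rhs => rw [e, map_mul]
    exact mul_lt_mul_of_pos_right h3.2 h0'
  -- the trace of `e x`
  obtain ⟨e, he⟩ : ∃ e : M, e = t / (1 + t) := ⟨_, rfl⟩
  have he1 : P.valuation (e - 1) < P.valuation c := by
    have : e - 1 = -(1 + t)⁻¹ := by
      rw [he]
      field_simp
      ring
    rw [this, Valuation.map_neg, map_inv₀, h10, inv_lt_comm₀ (lt_trans zero_lt_one ht2) hvc,
      ← map_inv₀]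
    exact ht1
  obtain ⟨m', hm'⟩ : ∃ m' : M, m' = (e - 1) + ∑ j ∈ Finset.Ico 1 p,
      (s ^ j) e * ((s ^ j) x / x) := ⟨_, rfl⟩
  have hm1 : P.valuation m' < P.valuation c := by
    rw [hm']
    refine lt_of_le_of_lt (P.valuation.map_add _ _) (max_lt he1 ?_)
    refine Valuation.map_sum_lt _ hvc.ne' ?_
    intro j hj
    rw [Finset.mem_Ico] at hj
    obtain ⟨h1, h2⟩ := htj' j hj.1 hj.2
    rw [he, map_div₀, map_add, map_one, map_mul, map_div₀,
      P.valuation.map_one_add_of_lt h1, div_one, ← map_mul]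
    exact h2
  have hc1' : P.valuation m' < 1 := lt_of_lt_of_le hm1 hc1
  have hm0 : P.valuation (1 + m') = 1 := P.valuation.map_one_add_of_lt hc1'
  have hm0' : (1 + m') ≠ 0 := by
    intro h
    rw [h, map_zero] at hm0
    exact zero_ne_one hm0
  have hsum : ∑ j ∈ Finset.range p, (s ^ j) (e * x) = x * (1 + m') := by
    rw [Finset.range_eq_Ico, Finset.sum_eq_sum_Ico_succ_bot hp.pos, pow_zero, AlgEquiv.one_apply,
      hm', mul_add, mul_add, Finset.mul_sum, mul_one, mul_sub, mul_one]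
    have : ∀ j ∈ Finset.Ico 1 p, (s ^ j) (e * x) = x * ((s ^ j) e * ((s ^ j) x / x)) := by
      intro j _
      rw [map_mul]
      field_simp
    rw [zero_add, Finset.sum_congr rfl this]
    ring
  refine ⟨x * (1 + m'), (1 + m')⁻¹ - 1, ?_, mul_ne_zero hx hm0', ?_, ?_⟩
  · rw [← hsum, map_sum]
    have h1 : ∀ j ∈ Finset.range p, s ((s ^ j) (e * x)) = (s ^ (j + 1)) (e * x) := by
      intro j _
      rw [pow_succ', AlgEquiv.mul_apply]
    rw [Finset.sum_congr rfl h1]
    have h2 := Finset.sum_range_succ (fun j => (s ^ j) (e * x)) p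
    rw [Finset.sum_range_succ' (fun j => (s ^ j) (e * x)) p, hs, pow_zero] at h2
    exact add_right_cancel h2
  · have : (1 + m')⁻¹ - 1 = -(m' * (1 + m')⁻¹) := by
      field_simp
      ring
    rw [this, Valuation.map_neg, map_mul, map_inv₀, hm0, inv_one, mul_one]
    exact hm1
  · rw [add_sub_cancel, mul_assoc, mul_inv_cancel₀ hm0', mul_one]

end

end Pool.Agent.ETC
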