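import Mathlib
import Pool.Agent.Helper66.ETC.Approx

set_option autoImplicit false

/-! Conjugacy of the extensions of a valuation ring to a Galois extension. -/

namespace Pool.Agent.ETC

section

variable {F K : Type} [Field F] [Field K] [Algebra F K]

/-- an algebraic relation with coefficients in `R`, one of them `1` -/
lemma norm_poly (R : ValuationSubring F) {x : K} (hx : IsAlgebraic F x) :
    ∃ (N : ℕ) (b : ℕ → F), (∀ i, R.valuation (b i) ≤ 1) ∧
      (∃ j, j ≤ N ∧ b j = 1 ∧ ∀ i, j < i → R.valuation (b i) < 1) ∧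
      ∑ i ∈ Finset.range (N + 1), algebraMap F K (b i) * x ^ i = 0 := by
  classical
  obtain ⟨q, hq0, hq⟩ := hx
  have hsup : q.support.Nonempty := Polynomial.support_nonempty.2 hq0
  -- indices of maximal value
  let S : Finset ℕ := q.support.filter fun i =>
    ∀ k ∈ q.support, R.valuation (q.coeff k) ≤ R.valuation (q.coeff i)
  have hS : S.Nonempty := by
    obtain ⟨i, hi, hmax⟩ := Finset.exists_max_image q.support (fun i => R.valuation (q.coeff i)) hsup
    exact ⟨i, Finset.mem_filter.2 ⟨hi, hmax⟩⟩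
  obtain ⟨j, hj⟩ : ∃ j, j = S.max' hS := ⟨_, rfl⟩
  have hjS : j ∈ S := by rw [hj]; exact S.max'_mem hS
  obtain ⟨hj1, hj2⟩ := Finset.mem_filter.1 hjS
  have hj0 : q.coeff j ≠ 0 := Polynomial.mem_support_iff.1 hj1
  have hvj : 0 < R.valuation (q.coeff j) := zero_lt_iff.2 ((Valuation.ne_zero_iff _).2 hj0)
  have hle : ∀ i, R.valuation (q.coeff i) ≤ R.valuation (q.coeff j) := by
    intro i
    by_cases hi : i ∈ q.support
    · exact hj2 i hi
    · rw [Polynomial.notMem_support_iff.1 hi, map_zero]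
      exact zero_le'
  refine ⟨q.natDegree, fun i => q.coeff i / q.coeff j, ?_, ⟨j, ?_, div_self hj0, ?_⟩, ?_⟩
  · intro i
    rw [map_div₀]
    exact div_le_one_of_le₀ (hle i) (zero_le')
  · exact Polynomial.le_natDegree_of_mem_supp j hj1
  · intro i hi
    rw [map_div₀, div_lt_one₀ hvj]
    by_cases h : i ∈ q.support
    · have h1 : i ∉ S := fun h2 => absurd (S.le_max' i h2) (by rw [← hj]; exact not_le.2 hi)
      have h2 : ¬ ∀ k ∈ q.support, R.valuation (q.coeff k) ≤ R.valuation (q.coeff i) :=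
        fun h2 => h1 (Finset.mem_filter.2 ⟨h, h2⟩)
      push Not at h2
      obtain ⟨k, _, hk2⟩ := h2
      exact lt_of_lt_of_le hk2 (hle k)
    · rw [Polynomial.notMem_support_iff.1 h, map_zero]
      exact hvj
  · have h1 : ∑ i ∈ Finset.range (q.natDegree + 1), algebraMap F K (q.coeff i) * x ^ i = 0 := by
      rw [← hq, Polynomial.aeval_eq_sum_range]
      exact Finset.sum_congr rfl fun i _ => by rw [Algebra.smul_def]
    have h2 : ∑ i ∈ Finset.range (q.natDegree + 1),
        algebraMap F K (q.coeff i / q.coeff j) * x ^ i =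
        (∑ i ∈ Finset.range (q.natDegree + 1), algebraMap F K (q.coeff i) * x ^ i) /
          algebraMap F K (q.coeff j) := by
      rw [Finset.sum_div]
      refine Finset.sum_congr rfl fun i _ => ?_
      rw [map_div₀]
      ring
    rw [h2, h1, zero_div]

/-- comparison of a value of the base field -/
lemma le_one_iff (V : ValuationSubring K) (f : F) :
    V.valuation (algebraMap F K f) ≤ 1 ↔ (V.comap (algebraMap F K)).valuation f ≤ 1 := by
  rw [ValuationSubring.valuation_le_one_iff, ValuationSubring.valuation_le_one_iff,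
    ValuationSubring.mem_comap]

lemma le_iff_le (V : ValuationSubring K) (f g : F) :
    V.valuation (algebraMap F K f) ≤ V.valuation (algebraMap F K g) ↔
      (V.comap (algebraMap F K)).valuation f ≤ (V.comap (algebraMap F K)).valuation g := by
  by_cases hg : g = 0
  · subst hg
    rw [map_zero, map_zero, map_zero, le_zero_iff, le_zero_iff, Valuation.zero_iff,
      Valuation.zero_iff, map_eq_zero]
  · have h1 : 0 < V.valuation (algebraMap F K g) :=
      zero_lt_iff.2 ((Valuation.ne_zero_iff _).2 (by rwa [ne_eq, map_eq_zero]))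
    have h2 : 0 < (V.comap (algebraMap F K)).valuation g :=
      zero_lt_iff.2 ((Valuation.ne_zero_iff _).2 hg)
    rw [← div_le_one₀ h1, ← div_le_one₀ h2, ← map_div₀, ← map_div₀, ← map_div₀, le_one_iff]

lemma lt_iff_lt (V : ValuationSubring K) (f g : F) :
    V.valuation (algebraMap F K f) < V.valuation (algebraMap F K g) ↔
      (V.comap (algebraMap F K)).valuation f < (V.comap (algebraMap F K)).valuation g := by
  rw [← not_le, ← not_le, le_iff_le]

lemma lt_one_iff' (V : ValuationSubring K) (f : F) :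
    V.valuation (algebraMap F K f) < 1 ↔ (V.comap (algebraMap F K)).valuation f < 1 := by
  have := lt_iff_lt V f 1
  rwa [map_one, map_one, map_one] at this

/-- the fractional form of the elements of a valuation ring over `R` -/
lemma exists_frac {V : ValuationSubring K} {x : K} (halg : IsAlgebraic F x) (hx : x ∈ V) :
    ∃ y z : K, (∀ W : ValuationSubring K,
      (V.comap (algebraMap F K) ≤ W.comap (algebraMap F K)) → y ∈ W ∧ z ∈ W) ∧
      V.valuation y = 1 ∧ x * y = z := by
  by_cases hx0 : x = 0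
  · subst hx0
    exact ⟨1, 0, fun W _ => ⟨W.one_mem, W.zero_mem⟩, map_one _, by simp⟩
  obtain ⟨N, b, hb, ⟨j, hjN, hbj, hjlt⟩, hsum⟩ := norm_poly (V.comap (algebraMap F K)) halg
  obtain ⟨y, hy⟩ : ∃ y : K, y = ∑ i ∈ Finset.Ico j (N + 1), algebraMap F K (b i) * x ^ (i - j) :=
    ⟨_, rfl⟩
  obtain ⟨z, hz⟩ : ∃ z : K, z = ∑ i ∈ Finset.range j, algebraMap F K (b i) * x⁻¹ ^ (j - 1 - i) :=
    ⟨_, rfl⟩
  have hrel : x * y = -z := by
    have h1 : x ^ j * y + x ^ j * (x⁻¹ * z) = 0 := by
      rw [← hsum, Finset.range_eq_Ico, ← Finset.sum_Ico_consecutive _ (Nat.zero_le j)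
        (Nat.le_succ_of_le hjN), add_comm, hy, hz, Finset.mul_sum, Finset.mul_sum,
        Finset.mul_sum, Finset.range_eq_Ico]
      congr 1
      · refine Finset.sum_congr rfl fun i hi => ?_
        rw [Finset.mem_Ico] at hi
        have e : x ^ j = x ^ (j - 1 - i) * x * x ^ i := by
          rw [← pow_succ, ← pow_add]
          congr 1
          omega
        rw [e, inv_pow]
        field_simp
      · refine Finset.sum_congr rfl fun i hi => ?_
        rw [Finset.mem_Ico] at hi
        have e : x ^ i = x ^ j * x ^ (i - j) := by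
          rw [← pow_add]
          congr 1
          omega
        rw [e]
        ring
    have h2 : x ^ j * (y + x⁻¹ * z) = 0 := by rw [mul_add]; exact h1
    have h3 : y + x⁻¹ * z = 0 := (mul_eq_zero.1 h2).resolve_left (pow_ne_zero _ hx0)
    have h4 : x * (y + x⁻¹ * z) = 0 := by rw [h3, mul_zero]
    rw [mul_add, ← mul_assoc, mul_inv_cancel₀ hx0, one_mul] at h4
    exact eq_neg_of_add_eq_zero_left h4
  have hv : V.valuation y = 1 := by
    have hx' : V.valuation x ≤ 1 := (V.valuation_le_one_iff x).2 hx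
    rw [hy, Finset.sum_eq_sum_Ico_succ_bot (Nat.lt_succ_of_le hjN), hbj, map_one, one_mul,
      Nat.sub_self, pow_zero]
    apply V.valuation.map_one_add_of_lt
    refine Valuation.map_sum_lt _ one_ne_zero ?_
    intro i hi
    rw [Finset.mem_Ico] at hi
    rw [map_mul, map_pow]
    refine lt_of_le_of_lt (mul_le_of_le_one_right' (pow_le_one' hx' _)) ?_
    rw [lt_one_iff']
    exact hjlt i hi.1
  refine ⟨y, -z, fun W hW => ?_, hv, hrel⟩
  have hbW : ∀ i, algebraMap F K (b i) ∈ W := fun i =>
    hW ((ValuationSubring.valuation_le_one_iff _ _).1 (hb i))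
  rcases W.mem_or_inv_mem x with h | h
  · have h1 : y ∈ W := by
      rw [hy]
      exact sum_mem fun i _ => mul_mem (hbW i) (pow_mem h _)
    exact ⟨h1, by rw [← hrel]; exact mul_mem h h1⟩
  · have h1 : z ∈ W := by
      rw [hz]
      exact sum_mem fun i _ => mul_mem (hbW i) (pow_mem h _)
    refine ⟨?_, neg_mem h1⟩
    have e : y = x⁻¹ * (-z) := by rw [← hrel, ← mul_assoc, inv_mul_cancel₀ hx0, one_mul]
    rw [e]
    exact mul_mem h (neg_mem h1)

/-- comparable extensions of a valuation ring are equal -/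
theorem eq_of_le [Algebra.IsAlgebraic F K] {V V' : ValuationSubring K} (h : V ≤ V')
    (hc : V'.comap (algebraMap F K) ≤ V.comap (algebraMap F K)) : V = V' := by
  classical
  refine le_antisymm h fun x hx => ?_
  by_contra hxV
  have hx0 : x ≠ 0 := fun e => hxV (by rw [e]; exact V.zero_mem)
  have hw : x⁻¹ ∈ V := (V.mem_or_inv_mem x).resolve_left hxV
  have hcomap : V'.comap (algebraMap F K) = V.comap (algebraMap F K) :=
    le_antisymm hc fun f hf => h hf
  obtain ⟨N, b, hb, ⟨j, hjN, hbj, -⟩, hsum⟩ := norm_poly (V.comap (algebraMap F K))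
    (Algebra.IsAlgebraic.isAlgebraic (R := F) x⁻¹)
  have hex : ∃ i, i ≤ N ∧ ¬ (V.comap (algebraMap F K)).valuation (b i) < 1 :=
    ⟨j, hjN, by rw [hbj, map_one]; exact lt_irrefl _⟩
  obtain ⟨i₀, hi₀⟩ : ∃ i₀, i₀ = Nat.find hex := ⟨_, rfl⟩
  obtain ⟨h1, h2⟩ := hi₀ ▸ Nat.find_spec hex
  have h3 : ∀ i < i₀, (V.comap (algebraMap F K)).valuation (b i) < 1 := by
    intro i hi
    by_contra h4
    rw [hi₀] at hi
    exact Nat.find_min hex hi ⟨by omega, h4⟩
  have hw' : V.valuation x⁻¹ < 1 := by
    rw [map_inv₀, inv_lt_one₀ (zero_lt_iff.2 ((Valuation.ne_zero_iff _).2 hx0)), ← not_le,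
      ValuationSubring.valuation_le_one_iff]
    exact hxV
  have hw1 : V'.valuation x⁻¹ = 1 := by
    apply le_antisymm
    · exact (ValuationSubring.valuation_le_one_iff _ _).2 (h hw)
    · rw [map_inv₀, one_le_inv₀ (zero_lt_iff.2 ((Valuation.ne_zero_iff _).2 hx0)),
        ValuationSubring.valuation_le_one_iff]
      exact hx
  -- the tail
  obtain ⟨t, ht⟩ : ∃ t : K, t = ∑ i ∈ Finset.Ico i₀ (N + 1),
      algebraMap F K (b i) * x⁻¹ ^ (i - i₀) := ⟨_, rfl⟩
  have hrel : ∑ i ∈ Finset.Ico 0 i₀, algebraMap F K (b i) * x⁻¹ ^ i = -(x⁻¹ ^ i₀ * t) := by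
    rw [eq_neg_iff_add_eq_zero, ← hsum, Finset.range_eq_Ico, ← Finset.sum_Ico_consecutive _
      (Nat.zero_le i₀) (Nat.le_succ_of_le h1), ht, Finset.mul_sum]
    congr 1
    refine Finset.sum_congr rfl fun i hi => ?_
    rw [Finset.mem_Ico] at hi
    have e : x⁻¹ ^ i = x⁻¹ ^ i₀ * x⁻¹ ^ (i - i₀) := by
      rw [← pow_add]
      congr 1
      omega
    rw [e]
    ring
  have hlow : V'.valuation (∑ i ∈ Finset.Ico 0 i₀, algebraMap F K (b i) * x⁻¹ ^ i) < 1 := by
    refine Valuation.map_sum_lt _ one_ne_zero ?_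
    intro i hi
    rw [Finset.mem_Ico] at hi
    rw [map_mul, map_pow, hw1, one_pow, mul_one, lt_one_iff', hcomap]
    exact h3 i hi.2
  rw [hrel, Valuation.map_neg, map_mul, map_pow, hw1, one_pow, one_mul] at hlow
  have ht1 : V.valuation t < 1 := by
    have := (ValuationSubring.nonunits_le_nonunits (A := V) (B := V')).2 h
    exact this hlow
  have ht2 : ¬ V.valuation t < 1 := by
    rw [ht, Finset.sum_eq_sum_Ico_succ_bot (Nat.lt_succ_of_le h1), Nat.sub_self, pow_zero,
      mul_one]
    have h5 : V.valuation (∑ i ∈ Finset.Ico (i₀ + 1) (N + 1),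
        algebraMap F K (b i) * x⁻¹ ^ (i - i₀)) < 1 := by
      refine Valuation.map_sum_lt _ one_ne_zero ?_
      intro i hi
      rw [Finset.mem_Ico] at hi
      rw [map_mul, map_pow]
      refine lt_of_le_of_lt (mul_le_of_le_one_left' ((le_one_iff V _).2 (hb i))) ?_
      exact pow_lt_one₀ (zero_le') hw' (by omega)
    have h6 : V.valuation (algebraMap F K (b i₀)) = 1 :=
      le_antisymm ((le_one_iff V _).2 (hb i₀)) (by
        rw [← not_lt, lt_one_iff']
        exact h2)
    rw [Valuation.map_add_eq_of_lt_left _ (by rw [h6]; exact h5), h6]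
    exact lt_irrefl _
  exact ht2 ht1

end

end Pool.Agent.ETC
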