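import Mathlib
import Pool.Agent.Helper66.ETC.Conj

set_option autoImplicit false

/-! Conjugacy of the extensions of a valuation ring to a Galois extension. -/

namespace Pool.Agent.ETC

open scoped Pointwise

section

variable {F K : Type} [Field F] [Field K] [Algebra F K]

/-- the intersection of the valuation rings over `R` -/
def Bi (R : ValuationSubring F) (K : Type) [Field K] [Algebra F K] : Subring K where
  carrier := {x | ∀ W : ValuationSubring K, R ≤ W.comap (algebraMap F K) → x ∈ W}
  one_mem' := fun W _ => W.one_mem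
  zero_mem' := fun W _ => W.zero_mem
  mul_mem' := fun hx hy W hW => mul_mem (hx W hW) (hy W hW)
  add_mem' := fun hx hy W hW => add_mem (hx W hW) (hy W hW)
  neg_mem' := fun hx W hW => neg_mem (hx W hW)

lemma mem_Bi {R : ValuationSubring F} {x : K} :
    x ∈ Bi R K ↔ ∀ W : ValuationSubring K, R ≤ W.comap (algebraMap F K) → x ∈ W := Iff.rfl

/-- the action of the Galois group on `Bi` -/
@[reducible] def BiAct (R : ValuationSubring F) : MulSemiringAction (K ≃ₐ[F] K) (Bi R K) where
  smul g b := ⟨g b.1, fun W hW => b.2 (W.comap (g : K →+* K)) (fun r hr => by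
    rw [ValuationSubring.mem_comap, ValuationSubring.mem_comap]
    have : (g : K →+* K) (algebraMap F K r) = algebraMap F K r := g.commutes r
    rw [this]
    exact hW hr)⟩
  one_smul b := Subtype.ext rfl
  mul_smul g h b := Subtype.ext rfl
  smul_zero g := Subtype.ext (map_zero g)
  smul_add g a b := Subtype.ext (map_add g a.1 b.1)
  smul_one g := Subtype.ext (map_one g)
  smul_mul g a b := Subtype.ext (map_mul g a.1 b.1)

/-- `R → Bi R K` -/
def BiMap (R : ValuationSubring F) : R →+* Bi R K where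
  toFun r := ⟨algebraMap F K r, fun _ hW => hW r.2⟩
  map_one' := Subtype.ext (map_one _)
  map_zero' := Subtype.ext (map_zero _)
  map_mul' a b := Subtype.ext (map_mul _ _ _)
  map_add' a b := Subtype.ext (map_add _ _ _)

/-- `Bi R K → V` -/
def BiTo (R : ValuationSubring F) (V : ValuationSubring K) (h : R ≤ V.comap (algebraMap F K)) :
    Bi R K →+* V where
  toFun b := ⟨b.1, b.2 V h⟩
  map_one' := rfl
  map_zero' := rfl
  map_mul' a b := rfl
  map_add' a b := rfl

/-- the center of `V` on `Bi` -/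
def BiP (R : ValuationSubring F) (V : ValuationSubring K) (h : R ≤ V.comap (algebraMap F K)) :
    Ideal (Bi R K) := (IsLocalRing.maximalIdeal V).comap (BiTo R V h)

lemma mem_BiP {R : ValuationSubring F} {V : ValuationSubring K}
    {h : R ≤ V.comap (algebraMap F K)} {b : Bi R K} : b ∈ BiP R V h ↔ V.valuation b.1 < 1 := by
  unfold BiP
  rw [Ideal.mem_comap, ValuationSubring.valuation_lt_one_iff]
  rfl

/-- the extensions are conjugate -/
theorem conj [IsGalois F K] (V V' : ValuationSubring K)
    (h : V.comap (algebraMap F K) = V'.comap (algebraMap F K)) :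
    ∃ σ : K ≃ₐ[F] K, ∀ x : K, σ x ∈ V' ↔ x ∈ V := by
  obtain ⟨R, hR⟩ : ∃ R : ValuationSubring F, R = V.comap (algebraMap F K) := ⟨_, rfl⟩
  have hV : R ≤ V.comap (algebraMap F K) := hR.le
  have hV' : R ≤ V'.comap (algebraMap F K) := (hR.trans h).le
  let _ := BiAct (K := K) R
  let _ : Algebra R (Bi R K) := (BiMap R).toAlgebra
  let _ : TopologicalSpace (Bi R K) := ⊥
  have : DiscreteTopology (Bi R K) := ⟨rfl⟩
  have hsm : ∀ (g : K ≃ₐ[F] K) (b : Bi R K), (g • b).1 = g b.1 := fun _ _ => rfl
  have ham : ∀ a : R, (algebraMap R (Bi R K) a).1 = algebraMap F K a := fun _ => rfl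
  have : SMulCommClass (K ≃ₐ[F] K) R (Bi R K) := ⟨fun g a b => by
    apply Subtype.ext
    rw [Algebra.smul_def, Algebra.smul_def, smul_mul']
    change g _ * g _ = _ * g _
    rw [ham]
    change g _ * g _ = algebraMap F K a * g _
    rw [g.commutes]⟩
  have : Algebra.IsInvariant R (Bi R K) (K ≃ₐ[F] K) := ⟨fun b hb => by
    have h1 : ∀ g : K ≃ₐ[F] K, g b.1 = b.1 := fun g => congrArg Subtype.val (hb g)
    obtain ⟨f, hf⟩ := (InfiniteGalois.mem_range_algebraMap_iff_fixed b.1).2 h1
    have h2 : f ∈ R := by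
      rw [hR, ValuationSubring.mem_comap, hf]
      exact b.2 V hV
    exact ⟨⟨f, h2⟩, Subtype.ext hf⟩⟩
  have : ContinuousSMul (K ≃ₐ[F] K) (Bi R K) := by
    rw [continuousSMul_iff_stabilizer_isOpen]
    intro b
    have h1 : (MulAction.stabilizer (K ≃ₐ[F] K) b : Set (K ≃ₐ[F] K)) =
        MulAction.stabilizer (K ≃ₐ[F] K) b.1 := by
      ext g
      rw [SetLike.mem_coe, SetLike.mem_coe, MulAction.mem_stabilizer_iff,
        MulAction.mem_stabilizer_iff]
      exact ⟨fun h => congrArg Subtype.val h, fun h => Subtype.ext h⟩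
    rw [h1]
    exact stabilizer_isOpen_of_isIntegral b.1
  have hp1 : (BiP R V hV).IsPrime := Ideal.comap_isPrime _ _
  have hp2 : (BiP R V' hV').IsPrime := Ideal.comap_isPrime _ _
  obtain ⟨g, hg⟩ := Algebra.IsInvariant.exists_smul_of_under_eq_of_profinite (A := R)
    (G := (K ≃ₐ[F] K)) (BiP R V hV) (BiP R V' hV') (by
      ext a
      change algebraMap R (Bi R K) a ∈ BiP R V hV ↔ algebraMap R (Bi R K) a ∈ BiP R V' hV'
      rw [mem_BiP, mem_BiP, ham, lt_one_iff', lt_one_iff', h])
  have hmem : ∀ b : Bi R K, V'.valuation (g b.1) < 1 ↔ V.valuation b.1 < 1 := by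
    intro b
    have h1 : g • b ∈ g • BiP R V hV ↔ b ∈ BiP R V hV := Ideal.smul_mem_pointwise_smul_iff
    rw [← hg, mem_BiP, mem_BiP] at h1
    exact h1
  have hmem' : ∀ b : Bi R K, V.valuation (g.symm b.1) < 1 ↔ V'.valuation b.1 < 1 := by
    intro b
    have h1 := hmem (g⁻¹ • b)
    rw [hsm] at h1
    have h2 : g ((g⁻¹ : K ≃ₐ[F] K) b.1) = b.1 := g.apply_symm_apply _
    rw [h2] at h1
    exact h1.symm
  refine ⟨g, fun x => ⟨fun hx => ?_, fun hx => ?_⟩⟩
  · obtain ⟨y, z, hyz, hy, hxy⟩ := exists_frac (F := F) (V := V') (x := g x)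
      (Algebra.IsAlgebraic.isAlgebraic _) hx
    have hyB : y ∈ Bi R K := fun W hW => (hyz W (by rw [← h, ← hR]; exact hW)).1
    have hzB : z ∈ Bi R K := fun W hW => (hyz W (by rw [← h, ← hR]; exact hW)).2
    have h1 : V.valuation (g.symm y) = 1 := by
      apply le_antisymm
      · exact (ValuationSubring.valuation_le_one_iff _ _).2
          ((g.symm • (⟨y, hyB⟩ : Bi R K)).2 V hV)
      · rw [← not_lt, hmem' ⟨y, hyB⟩, hy]
        exact lt_irrefl _
    have h2 : x * g.symm y = g.symm z := by
      rw [← hxy, map_mul, g.symm_apply_apply]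
    have h4 : V.valuation x = V.valuation (g.symm z) := by
      rw [← h2, map_mul, h1, mul_one]
    have h3 : V.valuation x ≤ 1 := by
      rw [h4]
      exact (ValuationSubring.valuation_le_one_iff _ _).2
          ((g.symm • (⟨z, hzB⟩ : Bi R K)).2 V hV)
    exact (ValuationSubring.valuation_le_one_iff _ _).1 h3
  · obtain ⟨y, z, hyz, hy, hxy⟩ := exists_frac (F := F) (V := V) (x := x)
      (Algebra.IsAlgebraic.isAlgebraic _) hx
    have hyB : y ∈ Bi R K := fun W hW => (hyz W (by rw [← hR]; exact hW)).1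
    have hzB : z ∈ Bi R K := fun W hW => (hyz W (by rw [← hR]; exact hW)).2
    have h1 : V'.valuation (g y) = 1 := by
      apply le_antisymm
      · exact (ValuationSubring.valuation_le_one_iff _ _).2
          ((g • (⟨y, hyB⟩ : Bi R K)).2 V' hV')
      · rw [← not_lt, hmem ⟨y, hyB⟩, hy]
        exact lt_irrefl _
    have h2 : g x * g y = g z := by
      rw [← hxy, map_mul]
    have h4 : V'.valuation (g x) = V'.valuation (g z) := by
      rw [← h2, map_mul, h1, mul_one]
    have h3 : V'.valuation (g x) ≤ 1 := by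
      rw [h4]
      exact (ValuationSubring.valuation_le_one_iff _ _).2
          ((g • (⟨z, hzB⟩ : Bi R K)).2 V' hV')
    exact (ValuationSubring.valuation_le_one_iff _ _).1 h3

end

end Pool.Agent.ETC
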