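import Mathlib
import Pool.Agent.Helper66.ETC.Conj2

set_option autoImplicit false

/-! Decomposition fields are immediate with precision `|1 - ζ|^p`. -/

namespace Pool.Agent.ETC

/-- in a finite `p`-group, proper subgroups are properly contained in their normalizers -/
lemma pgroup_step {Q : Type} [Group Q] [Finite Q] {p : ℕ} (hp : p.Prime) {k : ℕ}
    (hk : Nat.card Q = p ^ k) {H : Subgroup Q} (hH : H ≠ ⊤) :
    ∃ q : Q, q ∉ H ∧ q ^ p ∈ H ∧ ∀ h : Q, h ∈ H ↔ q * h * q⁻¹ ∈ H := by
  classical
  have : Fact p.Prime := ⟨hp⟩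
  have hQ : IsPGroup p Q := IsPGroup.of_card hk
  have hn : Group.IsNilpotent Q := hQ.isNilpotent
  have hlt := Group.normalizerCondition_of_isNilpotent (G := Q) H (lt_top_iff_ne_top.2 hH)
  obtain ⟨g, hg, hgH⟩ := SetLike.exists_of_lt hlt
  have hex : ∃ j : ℕ, g ^ p ^ j ∈ H := by
    refine ⟨k, ?_⟩
    rw [← hk, pow_card_eq_one']
    exact H.one_mem
  obtain ⟨j, hj⟩ : ∃ j, j = Nat.find hex := ⟨_, rfl⟩
  have h1 : g ^ p ^ j ∈ H := hj ▸ Nat.find_spec hex
  have hj0 : j ≠ 0 := by
    intro h0
    rw [h0, pow_zero, pow_one] at h1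
    exact hgH h1
  obtain ⟨i, rfl⟩ := Nat.exists_eq_succ_of_ne_zero hj0
  refine ⟨g ^ p ^ i, ?_, ?_, ?_⟩
  · intro h2
    exact Nat.find_min hex (m := i) (by rw [← hj]; exact Nat.lt_succ_self i) h2
  · rw [← pow_mul, ← pow_succ]
    exact h1
  · exact Subgroup.mem_normalizer_iff.1 (Subgroup.pow_mem _ hg _)

section

variable {F K : Type} [Field F] [Field K] [Algebra F K] {p : ℕ}

lemma gal_step (h : PCl p F K) (hp : p.Prime) (E : IntermediateField F K) [FiniteDimensional F E]
    (hE : E ≠ ⊥) : ∃ τ : K ≃ₐ[F] K, (∃ x ∈ E, τ x ≠ x) ∧ (∀ x ∈ E, (τ ^ p) x = x) ∧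
      ∀ x ∈ E, τ x ∈ E := by
  have := h.gal
  obtain ⟨N, hN⟩ : ∃ N : IntermediateField F K, N = IntermediateField.normalClosure F E K :=
    ⟨_, rfl⟩
  have hfd : FiniteDimensional F N := by rw [hN]; infer_instance
  have hgal : IsGalois F N := by rw [hN]; infer_instance
  obtain ⟨k, hk⟩ := h.pgp N hfd hgal
  have hEN : E ≤ N := by
    rw [hN]
    exact IntermediateField.le_normalClosure E
  have hcard : Nat.card (N ≃ₐ[F] N) = p ^ k := by
    rw [IsGalois.card_aut_eq_finrank, hk]
  obtain ⟨E', hE'⟩ : ∃ E' : IntermediateField F N, E' = IntermediateField.restrict hEN := ⟨_, rfl⟩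
  have hmem : ∀ x : N, x ∈ E' ↔ (x : K) ∈ E := fun x => by
    rw [hE']
    exact IntermediateField.mem_restrict hEN x
  have hne : E'.fixingSubgroup ≠ ⊤ := by
    intro hc
    apply hE
    rw [eq_bot_iff]
    intro x hx
    have h1 : ∀ q : N ≃ₐ[F] N, q ⟨x, hEN hx⟩ = ⟨x, hEN hx⟩ := by
      intro q
      have h2 : q ∈ E'.fixingSubgroup := by rw [hc]; exact Subgroup.mem_top q
      rw [IntermediateField.mem_fixingSubgroup_iff] at h2
      exact h2 _ ((hmem _).2 hx)
    obtain ⟨f, hf⟩ := (IsGalois.mem_range_algebraMap_iff_fixed _).2 h1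
    rw [IntermediateField.mem_bot]
    exact ⟨f, congrArg Subtype.val hf⟩
  obtain ⟨q, hq1, hq2, hq3⟩ := pgroup_step hp hcard hne
  obtain ⟨τ, hτ⟩ := AlgEquiv.restrictNormalHom_surjective (F := F) (K₁ := N) K q
  have hτx : ∀ (σ : K ≃ₐ[F] K) (x : N),
      ((AlgEquiv.restrictNormalHom N σ x : N) : K) = σ (x : K) := fun σ x =>
    AlgEquiv.restrictNormal_commutes σ N x
  refine ⟨τ, ?_, ?_, ?_⟩
  · rw [IntermediateField.mem_fixingSubgroup_iff] at hq1
    push Not at hq1
    obtain ⟨x, hx, hqx⟩ := hq1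
    refine ⟨x, (hmem x).1 hx, fun hc => hqx ?_⟩
    apply Subtype.ext
    rw [← hτ, hτx, hc]
  · intro x hx
    rw [IntermediateField.mem_fixingSubgroup_iff] at hq2
    have h1 := hq2 ⟨x, hEN hx⟩ ((hmem _).2 hx)
    rw [← hτ, ← map_pow] at h1
    have h2 := congrArg Subtype.val h1
    rw [hτx] at h2
    exact h2
  · intro x hx
    have h1 : q ⟨x, hEN hx⟩ ∈ E' := by
      rw [← IsGalois.fixedField_fixingSubgroup E', IntermediateField.mem_fixedField_iff]
      intro g hg
      have h2 : q⁻¹ * g * q ∈ E'.fixingSubgroup := by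
        rw [hq3]
        have : q * (q⁻¹ * g * q) * q⁻¹ = g := by group
        rwa [this]
      rw [IntermediateField.mem_fixingSubgroup_iff] at h2
      have h3 := h2 ⟨x, hEN hx⟩ ((hmem _).2 hx)
      have h4 := congrArg q h3
      rw [← AlgEquiv.mul_apply, ← mul_assoc, ← mul_assoc, mul_inv_cancel, one_mul,
        AlgEquiv.mul_apply] at h4
      exact h4
    rw [hmem, ← hτ, hτx] at h1
    exact h1

/-- **(V1)** the decomposition field is immediate over `F`, with precision `|1 - ζ|^p` -/
theorem v1_aux (h : PCl p F K) (hp : p.Prime) {ζ : F} (hζ : ζ ^ p = 1) (hζ1 : ζ ≠ 1)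
    (V : ValuationSubring K) (htop : Top ζ (V.comap (algebraMap F K))) (n : ℕ) :
    ∀ E : IntermediateField F K, FiniteDimensional F E → Module.finrank F E ≤ n →
      (∀ x ∈ E, ∀ σ ∈ Dec F V, σ x = x) → ∀ x ∈ E, x ≠ 0 →
        ∃ (f : F) (m : K), f ≠ 0 ∧ V.valuation m < V.valuation (algebraMap F K (1 - ζ)) ^ p ∧
          x = algebraMap F K f * (1 + m) := by
  have hgal := h.gal
  have h1ζ : (1 - ζ) ≠ 0 := sub_ne_zero.2 hζ1.symm
  have hvpos : 0 < V.valuation (algebraMap F K (1 - ζ)) ^ p :=
    zero_lt_iff.2 (pow_ne_zero _ ((Valuation.ne_zero_iff _).2 (by rwa [ne_eq, map_eq_zero])))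
  have hle1 : V.valuation (algebraMap F K (1 - ζ)) ^ p ≤ 1 := by
    apply pow_le_one'
    rw [le_one_iff]
    exact lam_le hp.ne_zero hζ _
  induction n with
  | zero =>
    intro E hfd hn _ x _ _
    exfalso
    have : 0 < Module.finrank F E := Module.finrank_pos
    omega
  | succ n ih =>
    intro E hfd hn hfix x hx hx0
    by_cases hE : E = ⊥
    · rw [hE, IntermediateField.mem_bot] at hx
      obtain ⟨f, rfl⟩ := hx
      refine ⟨f, 0, ?_, ?_, ?_⟩
      · rintro rfl
        exact hx0 (map_zero _)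
      · rw [map_zero]
        exact hvpos
      · rw [add_zero, mul_one]
    obtain ⟨τ, ⟨w, hw, hτw⟩, hτp, hτE⟩ := gal_step h hp E hE
    -- the automorphism of `E`
    let g : E →ₐ[F] E :=
      ((τ : K →ₐ[F] K).comp E.val).codRestrict E.toSubalgebra (fun x => hτE x x.2)
    have hg : ∀ x : E, ((g x : E) : K) = τ (x : K) := fun _ => rfl
    have hbij : Function.Bijective g := Algebra.IsAlgebraic.algHom_bijective g
    let s : E ≃ₐ[F] E := AlgEquiv.ofBijective g hbij
    have hs : ∀ x : E, ((s x : E) : K) = τ (x : K) := fun _ => rfl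
    have hsk : ∀ (k : ℕ) (x : E), (((s ^ k) x : E) : K) = (τ ^ k) (x : K) := by
      intro k
      induction k with
      | zero => intro x; rfl
      | succ k ih =>
        intro x
        rw [pow_succ, pow_succ, AlgEquiv.mul_apply, AlgEquiv.mul_apply, ih, hs]
    have hsp : s ^ p = 1 := by
      ext x
      rw [hsk, hτp _ x.2]
      rfl
    obtain ⟨P, hP⟩ : ∃ P : ValuationSubring E, P = V.comap (algebraMap E K) := ⟨_, rfl⟩
    have hPm : ∀ x : E, x ∈ P ↔ (x : K) ∈ V := fun x => by rw [hP]; rfl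
    have hPF : P.comap (algebraMap F E) = V.comap (algebraMap F K) := by
      rw [hP]
      rfl
    have hval : ∀ x y : E, P.valuation x < P.valuation y ↔
        V.valuation (x : K) < V.valuation (y : K) := by
      intro x y
      rw [hP]
      exact (lt_iff_lt V x y).symm
    -- `P` is not invariant
    have hPinv : ¬ ∀ x : E, s x ∈ P ↔ x ∈ P := by
      intro hc
      obtain ⟨σ, hσ⟩ := conj (F := E) (K := K) V (V.comap (τ : K →+* K)) (by
        ext x
        rw [ValuationSubring.mem_comap, ValuationSubring.mem_comap, ValuationSubring.mem_comap]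
        have h1 := hc x
        rw [hPm, hPm, hs] at h1
        exact h1.symm)
      have hmem : τ * σ.restrictScalars F ∈ Dec F V := by
        rw [mem_Dec]
        intro x
        exact hσ x
      have h1 := hfix w hw _ hmem
      apply hτw
      have h2 : (σ.restrictScalars F) w = w := σ.commutes ⟨w, hw⟩
      rw [AlgEquiv.mul_apply, h2] at h1
      exact h1
    -- `P` is top
    have htopP : ∀ S : ValuationSubring E, P < S → (1 - algebraMap F E ζ)⁻¹ ∈ S := by
      intro S hS
      have h1 : V.comap (algebraMap F K) < S.comap (algebraMap F E) := by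
        rw [← hPF]
        refine lt_of_le_not_ge (fun f hf => hS.le hf) fun hc => ?_
        exact hS.ne (eq_of_le hS.le hc)
      have h2 := htop _ h1
      rw [ValuationSubring.mem_comap, map_inv₀, map_sub, map_one] at h2
      exact h2
    have hc0 : (1 - algebraMap F E ζ) ≠ 0 := by
      rw [← map_one (algebraMap F E), ← map_sub]
      rwa [ne_eq, map_eq_zero]
    have hcK : (((1 - algebraMap F E ζ) ^ p : E) : K) = algebraMap F K (1 - ζ) ^ p := by
      rw [map_sub, map_one]
      rfl
    have hsc : ∀ (f : E), V.valuation (f : K) < V.valuation (algebraMap F K (1 - ζ)) ^ p ↔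
        P.valuation f < P.valuation ((1 - algebraMap F E ζ) ^ p) := by
      intro f
      rw [hval, hcK, map_pow]
    obtain ⟨f, m, hsf, hf0, hm, hxf⟩ := step (s := s) (P := P) hp hsp hPinv
      (c := (1 - algebraMap F E ζ) ^ p) (pow_ne_zero _ hc0) (by
        rw [← not_lt, ← map_one P.valuation, hval, hcK, not_lt, map_pow]
        change _ ≤ V.valuation (((1 : E)) : K)
        rw [OneMemClass.coe_one, map_one]
        exact hle1) (by
        intro S hS
        rw [← inv_pow]
        exact pow_mem (htopP S hS) p) (x := ⟨x, hx⟩) (by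
        intro hc
        exact hx0 (congrArg Subtype.val hc))
    -- the fixed field of `s`
    obtain ⟨E', hE'⟩ : ∃ E' : IntermediateField F K, E' = E ⊓
      IntermediateField.fixedField (Subgroup.zpowers τ) := ⟨_, rfl⟩
    have hE'm : ∀ y : K, y ∈ E' ↔ y ∈ E ∧ τ y = y := by
      intro y
      rw [hE', IntermediateField.mem_inf, IntermediateField.mem_fixedField_iff]
      refine and_congr_right fun _ => ⟨fun h1 => h1 τ (Subgroup.mem_zpowers τ), fun h1 g hg => ?_⟩
      obtain ⟨k, rfl⟩ := Subgroup.mem_zpowers_iff.1 hg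
      have h2 : τ ∈ MulAction.stabilizer (K ≃ₐ[F] K) y := h1
      exact zpow_mem h2 k
    have hE'E : E' ≤ E := fun y hy => ((hE'm y).1 hy).1
    have hne : E' ≠ E := by
      intro hc
      rw [← hc, hE'm] at hw
      exact hτw hw.2
    have hfd' : FiniteDimensional F E' :=
      FiniteDimensional.of_injective (IntermediateField.inclusion hE'E).toLinearMap
        (IntermediateField.inclusion hE'E).injective
    have hlt : Module.finrank F E' < Module.finrank F E := by
      by_contra hc
      exact hne (IntermediateField.eq_of_le_of_finrank_le hE'E (not_lt.1 hc))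
    obtain ⟨f₀, m₀, hf₀, hm₀, hff⟩ := ih E' hfd' (by omega) (fun y hy => hfix y (hE'E hy)) f
      ((hE'm _).2 ⟨f.2, by rw [← hs, hsf]⟩) (by
        intro hc
        apply hf0
        exact Subtype.ext hc)
    have hxf' : x = (f : K) * (1 + (m : K)) := congrArg Subtype.val hxf
    refine ⟨f₀, m₀ + m + m₀ * m, hf₀, ?_, ?_⟩
    · have hm' : V.valuation (m : K) < V.valuation (algebraMap F K (1 - ζ)) ^ p := (hsc m).2 hm
      refine lt_of_le_of_lt (V.valuation.map_add _ _) (max_lt
        (lt_of_le_of_lt (V.valuation.map_add _ _) (max_lt hm₀ hm')) ?_)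
      rw [map_mul]
      exact lt_of_le_of_lt (mul_le_of_le_one_right' (hm'.le.trans hle1)) hm₀
    · rw [hxf', hff]
      ring

end

end Pool.Agent.ETC
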