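import Mathlib
import Pool.Agent.Helper66.ETC.V1

set_option autoImplicit false

/-! `F* ∩ L*^p = T(R)` and `F*/T(R) = L*/L*^p` for the decomposition field `L`. -/

namespace Pool.Agent.ETC

section

variable {F K : Type} [Field F] [Field K] [Algebra F K] {p : ℕ}

/-- `x` lies in the decomposition field of `V` -/
def InL (F : Type) [Field F] {K : Type} [Field K] [Algebra F K] (V : ValuationSubring K) (x : K) :
    Prop := ∀ σ ∈ Dec F V, σ x = x

lemma InL.map (V : ValuationSubring K) (f : F) : InL F V (algebraMap F K f) :=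
  fun σ _ => σ.commutes f

lemma InL.mul {V : ValuationSubring K} {x y : K} (hx : InL F V x) (hy : InL F V y) :
    InL F V (x * y) := fun σ hσ => by rw [map_mul, hx σ hσ, hy σ hσ]

lemma InL.div {V : ValuationSubring K} {x y : K} (hx : InL F V x) (hy : InL F V y) :
    InL F V (x / y) := fun σ hσ => by rw [map_div₀, hx σ hσ, hy σ hσ]

lemma InL.inv {V : ValuationSubring K} {x : K} (hx : InL F V x) :
    InL F V x⁻¹ := fun σ hσ => by rw [map_inv₀, hx σ hσ]

lemma InL.add {V : ValuationSubring K} {x y : K} (hx : InL F V x) (hy : InL F V y) :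
    InL F V (x + y) := fun σ hσ => by rw [map_add, hx σ hσ, hy σ hσ]

lemma InL.sub {V : ValuationSubring K} {x y : K} (hx : InL F V x) (hy : InL F V y) :
    InL F V (x - y) := fun σ hσ => by rw [map_sub, hx σ hσ, hy σ hσ]

lemma InL.pow {V : ValuationSubring K} {x : K} (hx : InL F V x) (n : ℕ) :
    InL F V (x ^ n) := fun σ hσ => by rw [map_pow, hx σ hσ]

lemma InL.one (V : ValuationSubring K) : InL F V (1 : K) := fun σ _ => map_one σ

/-- the decomposition group preserves the comparison of values -/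
lemma dec_lt {V : ValuationSubring K} {σ : K ≃ₐ[F] K} (hσ : σ ∈ Dec F V) (x y : K) :
    V.valuation (σ x) < V.valuation (σ y) ↔ V.valuation x < V.valuation y := by
  by_cases hy : y = 0
  · subst hy
    rw [map_zero, map_zero]
    exact ⟨fun h => absurd h not_lt_zero', fun h => absurd h not_lt_zero'⟩
  · have hy' : σ y ≠ 0 := by rwa [ne_eq, map_eq_zero_iff σ σ.injective]
    rw [val_lt_iff V hy', val_lt_iff V hy, ← map_div₀, mem_Dec.1 hσ,
      map_eq_zero_iff σ σ.injective]

/-- **(V1)** the decomposition field is immediate over `F`, with precision `|1 - ζ|^p` -/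
theorem v1 (h : PCl p F K) (hp : p.Prime) {ζ : F} (hζ : ζ ^ p = 1) (hζ1 : ζ ≠ 1)
    {V : ValuationSubring K} (htop : Top ζ (V.comap (algebraMap F K))) {x : K} (hx0 : x ≠ 0)
    (hx : InL F V x) :
    ∃ (f : Fˣ) (m : K), InL F V m ∧ V.valuation m < V.valuation (algebraMap F K (1 - ζ)) ^ p ∧
      x = algebraMap F K f * (1 + m) := by
  have hgal := h.gal
  have hfd : FiniteDimensional F (IntermediateField.adjoin F {x}) :=
    IntermediateField.adjoin.finiteDimensional (Algebra.IsIntegral.isIntegral x)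
  have hle : IntermediateField.adjoin F {x} ≤ IntermediateField.fixedField (Dec F V) := by
    rw [IntermediateField.adjoin_le_iff, Set.singleton_subset_iff, SetLike.mem_coe,
      IntermediateField.mem_fixedField_iff]
    exact hx
  obtain ⟨f, m, hf, hm, hxf⟩ := v1_aux h hp hζ hζ1 V htop _ _ hfd le_rfl (fun y hy =>
    (IntermediateField.mem_fixedField_iff _ _).1 (hle hy)) x
    (IntermediateField.mem_adjoin_simple_self F x) hx0
  have hf' : algebraMap F K f ≠ 0 := by rwa [ne_eq, map_eq_zero]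
  have hm' : m = x / algebraMap F K f - 1 := by
    rw [hxf, mul_div_cancel_left₀ _ hf', add_sub_cancel_left]
  refine ⟨Units.mk0 f hf, m, ?_, hm, hxf⟩
  rw [hm']
  exact (hx.div (InL.map V f)).sub (InL.one V)

/-- the difference `1 - η` of a nontrivial `p`-th root of unity -/
lemma lam_le_root (hp : p.Prime) {z η : K} (hz : z ^ p = 1) (hη : η ^ p = 1) (hη1 : η ≠ 1)
    (V : ValuationSubring K) : V.valuation (1 - z) ≤ V.valuation (1 - η) := by
  have : Fact p.Prime := ⟨hp⟩
  have hprim : IsPrimitiveRoot η p := by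
    have h1 : orderOf η = p := orderOf_eq_prime hη hη1
    rw [← h1]
    exact IsPrimitiveRoot.orderOf η
  have : NeZero p := ⟨hp.ne_zero⟩
  obtain ⟨i, -, hi⟩ := hprim.eq_pow_of_pow_eq_one hz
  have h1 : 1 - z = (1 - η) * ∑ j ∈ Finset.range i, η ^ j := by
    rw [← hi, mul_comm, Finset.sum_mul]
    have := geom_sum_mul_neg η i
    rw [Finset.sum_mul] at this
    exact this.symm
  rw [h1, map_mul]
  apply mul_le_of_le_one_right'
  apply Valuation.map_sum_le
  intro j _
  rw [map_pow]
  exact pow_le_one' ((V.valuation_le_one_iff _).2 (root_mem hp.ne_zero hη V)) j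

/-- a root near one -/
lemma near_one (hp : p.Prime) {z : K} (hz : IsPrimitiveRoot z p) (V : ValuationSubring K) {θ : K}
    (hθ : V.valuation (θ ^ p - 1) < V.valuation (1 - z) ^ p) :
    ∃ η : K, η ^ p = 1 ∧ V.valuation (η * θ - 1) < V.valuation (1 - z) := by
  classical
  have : NeZero p := ⟨hp.ne_zero⟩
  by_contra hcon
  push Not at hcon
  have h1 : ∀ x ∈ Polynomial.nthRootsFinset p (1 : K),
      V.valuation (1 - z) ≤ V.valuation (θ - x * 1) := by
    intro x hx
    rw [Polynomial.mem_nthRootsFinset hp.pos] at hx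
    have hx0 : x ≠ 0 := by
      rintro rfl
      rw [zero_pow hp.ne_zero] at hx
      exact zero_ne_one hx
    have h2 := hcon x⁻¹ (by rw [inv_pow, hx, inv_one])
    have h3 : V.valuation x = 1 := by
      have : V.valuation x ^ p = 1 := by rw [← map_pow, hx, map_one]
      exact (pow_eq_one_iff_of_nonneg zero_le' hp.ne_zero).1 this
    have h4 : θ - x * 1 = x * (x⁻¹ * θ - 1) := by
      rw [mul_sub, mul_one, ← mul_assoc, mul_inv_cancel₀ hx0, one_mul]
    rw [h4, map_mul, h3, one_mul]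
    exact h2
  have h5 := hz.pow_sub_pow_eq_prod_sub_mul θ 1 hp.pos
  rw [one_pow] at h5
  have h6 : V.valuation (1 - z) ^ p ≤ V.valuation (θ ^ p - 1) := by
    rw [h5, map_prod]
    have h7 := Finset.prod_le_prod' h1
    rw [Finset.prod_const, hz.card_nthRootsFinset] at h7
    exact h7
  exact absurd hθ (not_lt.2 h6)

/-- **(V2)** one-units of level `|1 - ζ|^p` have `p`-th roots in the decomposition field -/
theorem v2 (h : PCl p F K) (hp : p.Prime) {ζ : F} (hζ : IsPrimitiveRoot ζ p)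
    {V : ValuationSubring K} {m : K} (hm : InL F V m)
    (hlt : V.valuation m < V.valuation (algebraMap F K (1 - ζ)) ^ p) :
    ∃ l : K, InL F V l ∧ l ^ p = 1 + m ∧ V.valuation (l - 1) < V.valuation (algebraMap F K (1 - ζ)) ∧
      V.valuation l = 1 := by
  have hzK : IsPrimitiveRoot (algebraMap F K ζ) p :=
    hζ.map_of_injective (algebraMap F K).injective
  have e : algebraMap F K (1 - ζ) = 1 - algebraMap F K ζ := by rw [map_sub, map_one]
  rw [e] at hlt ⊢
  obtain ⟨θ₀, hθ₀⟩ := h.root (1 + m)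
  obtain ⟨η, hη, hlt1⟩ := near_one hp hzK V (θ := θ₀) (by
    rw [hθ₀, add_sub_cancel_left]
    exact hlt)
  obtain ⟨θ, hθ⟩ : ∃ θ : K, θ = η * θ₀ := ⟨_, rfl⟩
  rw [← hθ] at hlt1
  have hθp : θ ^ p = 1 + m := by rw [hθ, mul_pow, hη, one_mul, hθ₀]
  have hlam1 : V.valuation (1 - algebraMap F K ζ) ≤ 1 :=
    lam_le hp.ne_zero (by rw [← map_pow, hζ.pow_eq_one, map_one]) V
  have hv1 : V.valuation θ = 1 := by
    have := V.valuation.map_one_add_of_lt (lt_of_lt_of_le hlt1 hlam1)
    rwa [add_sub_cancel] at this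
  have hθ0 : θ ≠ 0 := by
    rintro rfl
    rw [map_zero] at hv1
    exact zero_ne_one hv1
  refine ⟨θ, ?_, hθp, hlt1, hv1⟩
  intro σ hσ
  by_contra hne
  have hσp : (σ θ / θ) ^ p = 1 := by
    rw [div_pow, ← map_pow, hθp, map_add, map_one, hm σ hσ, div_self]
    rw [← hθp]
    exact pow_ne_zero _ hθ0
  have hσ1 : σ θ / θ ≠ 1 := by
    intro hc
    rw [div_eq_one_iff_eq hθ0] at hc
    exact hne hc
  have h1 := lam_le_root hp (z := algebraMap F K ζ) (by rw [← map_pow, hζ.pow_eq_one, map_one])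
    hσp hσ1 V
  have h2 : V.valuation (1 - σ θ / θ) < V.valuation (1 - algebraMap F K ζ) := by
    have e1 : 1 - σ θ / θ = ((θ - 1) - (σ θ - 1)) / θ := by
      field_simp
      ring
    rw [e1, map_div₀, hv1, div_one]
    refine lt_of_le_of_lt (V.valuation.map_sub _ _) (max_lt hlt1 ?_)
    have h3 := (dec_lt hσ (θ - 1) (1 - algebraMap F K ζ)).2 hlt1
    have e2 : σ (θ - 1) = σ θ - 1 := by rw [map_sub, map_one]
    have e3 : σ (1 - algebraMap F K ζ) = 1 - algebraMap F K ζ := by
      rw [map_sub, map_one, σ.commutes]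
    rwa [e2, e3] at h3
  exact absurd h2 (not_lt.2 h1)

lemma pow_one_add_sub {V : ValuationSubring K} {m : K} (hm : V.valuation m < 1) (n : ℕ) :
    V.valuation ((1 + m) ^ n - 1) ≤ V.valuation m := by
  have h1 : (1 + m) ^ n - 1 = m * ∑ j ∈ Finset.range n, (1 + m) ^ j := by
    have := geom_sum_mul (1 + m) n
    rw [add_sub_cancel_left] at this
    rw [← this, mul_comm]
  rw [h1, map_mul]
  apply mul_le_of_le_one_right'
  apply Valuation.map_sum_le
  intro j _
  rw [map_pow, V.valuation.map_one_add_of_lt hm, one_pow]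

/-- comparison with the base field -/
lemma sm_iff {ζ : F} (V : ValuationSubring K) (x : F) :
    V.valuation (algebraMap F K x) < V.valuation (algebraMap F K (1 - ζ)) ^ p ↔
      Sm p ζ (V.comap (algebraMap F K)) x := by
  unfold Sm
  rw [← map_pow, ← map_pow, ← map_pow, lt_iff_lt]

/-- **(V3)** `F* ∩ L*^p = T(R)` -/
theorem v3 (h : PCl p F K) (hp : p.Prime) {ζ : F} (hζ : IsPrimitiveRoot ζ p)
    {V : ValuationSubring K} (htop : Top ζ (V.comap (algebraMap F K))) (t : Fˣ) :
    (∃ l : K, InL F V l ∧ l ^ p = algebraMap F K t) ↔ t ∈ TR p ζ (V.comap (algebraMap F K)) := by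
  have hζ1 : ζ ≠ 1 := hζ.ne_one hp.one_lt
  rw [mem_TR hp.ne_zero hζ.pow_eq_one hζ1]
  constructor
  · rintro ⟨l, hl, hlt⟩
    have hl0 : l ≠ 0 := by
      rintro rfl
      rw [zero_pow hp.ne_zero] at hlt
      exact t.ne_zero ((map_eq_zero (algebraMap F K)).1 hlt.symm)
    obtain ⟨f, m, hm, hlt', hlf⟩ := v1 h hp hζ.pow_eq_one hζ1 htop hl0 hl
    have hf0 : algebraMap F K (f : F) ≠ 0 := by
      rw [ne_eq, map_eq_zero]
      exact f.ne_zero
    have hlam1 : V.valuation (algebraMap F K (1 - ζ)) ^ p ≤ 1 := by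
      apply pow_le_one'
      rw [le_one_iff]
      exact lam_le hp.ne_zero hζ.pow_eq_one _
    have h1 : algebraMap F K ((t : F) / (f : F) ^ p - 1) = (1 + m) ^ p - 1 := by
      rw [map_sub, map_one, map_div₀, map_pow, ← hlt, hlf, mul_pow,
        mul_div_cancel_left₀ _ (pow_ne_zero _ hf0)]
    refine ⟨f, (t : F) / (f : F) ^ p - 1, ?_, ?_⟩
    · rw [← sm_iff, h1]
      exact lt_of_le_of_lt (pow_one_add_sub (lt_of_lt_of_le hlt' hlam1) p) hlt'
    · rw [add_sub_cancel, mul_div_cancel₀]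
      exact pow_ne_zero _ f.ne_zero
  · rintro ⟨f, x, hx, ht⟩
    rw [← sm_iff] at hx
    obtain ⟨l, hl, hlp, -⟩ := v2 h hp hζ (InL.map V x) hx
    refine ⟨algebraMap F K f * l, (InL.map V _).mul hl, ?_⟩
    rw [mul_pow, hlp, ht, map_mul, map_pow, map_add, map_one]

/-- **(V3')** every element of the decomposition field is in `F* L*^p` -/
theorem v4 (h : PCl p F K) (hp : p.Prime) {ζ : F} (hζ : IsPrimitiveRoot ζ p)
    {V : ValuationSubring K} (htop : Top ζ (V.comap (algebraMap F K))) {x : K} (hx0 : x ≠ 0)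
    (hx : InL F V x) :
    ∃ (t : Fˣ) (l : K), InL F V l ∧ l ≠ 0 ∧ x = algebraMap F K t * l ^ p := by
  obtain ⟨f, m, hm, hlt, hxf⟩ := v1 h hp hζ.pow_eq_one (hζ.ne_one hp.one_lt) htop hx0 hx
  obtain ⟨l, hl, hlp, -, hl1⟩ := v2 h hp hζ hm hlt
  refine ⟨f, l, hl, ?_, by rw [hlp]; exact hxf⟩
  rintro rfl
  rw [map_zero] at hl1
  exact zero_ne_one hl1

end

end Pool.Agent.ETC
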