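import Mathlib
import Pool.Agent.Helper66.ETC.V3
import Pool.Agent.ETC.Base

set_option autoImplicit false

/-! `V1` and `V3` in the interface form; going up to finite extensions. -/

namespace Pool.Agent.ETC

section

variable {F E K : Type} [Field F] [Field E] [Field K] [Algebra F E] [Algebra E K] [Algebra F K]
  [IsScalarTower F E K]

lemma comap_tower (V : ValuationSubring K) :
    (V.comap (algebraMap E K)).comap (algebraMap F E) = V.comap (algebraMap F K) := by
  rw [ValuationSubring.comap_comap, ← IsScalarTower.algebraMap_eq]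

/-- `Top` goes up in algebraic extensions -/
lemma top_up' [Algebra.IsAlgebraic F E] {ζ : F} {R : ValuationSubring E}
    (h : Top ζ (R.comap (algebraMap F E))) : Top (algebraMap F E ζ) R := by
  intro S hS
  have h1 : R.comap (algebraMap F E) < S.comap (algebraMap F E) := by
    refine lt_of_le_not_ge (fun f hf => hS.le hf) fun hc => ?_
    exact hS.ne (eq_of_le hS.le hc)
  have h2 := h _ h1
  rw [ValuationSubring.mem_comap, map_inv₀, map_sub, map_one] at h2
  exact h2

lemma top_up [Algebra.IsAlgebraic F E] {ζ : F} {V : ValuationSubring K}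
    (h : Top ζ (V.comap (algebraMap F K))) :
    Top (algebraMap F E ζ) (V.comap (algebraMap E K)) := by
  apply top_up'
  rw [comap_tower]
  exact h

/-- decomposition groups over an intermediate field -/
lemma mem_Dec_resS {V : ValuationSubring K} {σ : K ≃ₐ[E] K} :
    resS F E K σ ∈ Dec F V ↔ σ ∈ Dec E V := Iff.rfl

end

theorem t_V1 : S_V1 := by
  intro p _ F K _ _ _ ζ hζ hP W htop x hx hfix
  have hp : p.Prime := Fact.out
  obtain ⟨f, m, -, hm, hxf⟩ := v1 hP hp hζ.pow_eq_one (hζ.ne_one hp.one_lt) htop hx hfix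
  exact ⟨f, m, hm, hxf⟩

theorem t_V3 : S_V3 := by
  intro p _ F K _ _ _ ζ hζ hP W htop
  have hp : p.Prime := Fact.out
  constructor
  · intro t
    rw [← v3 hP hp hζ htop]
    constructor
    · rintro ⟨l, hl, hlt⟩ α hα σ hσ
      have hl0 : l ≠ 0 := by
        rintro rfl
        rw [zero_pow hp.ne_zero] at hlt
        exact t.ne_zero ((map_eq_zero (algebraMap F K)).1 hlt.symm)
      have hz : IsPrimitiveRoot (algebraMap F K ζ) p :=
        hζ.map_of_injective (algebraMap F K).injective
      have : NeZero p := ⟨hp.ne_zero⟩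
      obtain ⟨i, -, hi⟩ := hz.eq_pow_of_pow_eq_one (ξ := α / l) (by
        rw [div_pow, hα, hlt, div_self]
        rw [← hlt]
        exact pow_ne_zero _ hl0)
      have e : α = algebraMap F K ζ ^ i * l := by rw [hi, div_mul_cancel₀ _ hl0]
      rw [e, map_mul, map_pow, σ.commutes, hl σ hσ]
    · intro h
      obtain ⟨α, hα⟩ := hP.root (algebraMap F K (t : F))
      exact ⟨α, fun σ hσ => h α hα σ hσ, hα⟩
  · intro x hx hfix
    obtain ⟨t, l, hl, -, hxt⟩ := v4 hP hp hζ htop hx hfix
    exact ⟨t, l, hl, hxt⟩

end Pool.Agent.ETC
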