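import Mathlib
import Pool.Agent.Helper66.ETC.Up
import Pool.Agent.Helper95.EC.Chi

set_option autoImplicit false

/-! NLIFT: local norms are global norms up to local `p`-th powers. -/

namespace Pool.Agent.ETC

open Pool.Agent.Helper95.EC

section

variable {F K : Type} [Field F] [Field K] [Algebra F K] {p : ℕ} [hp : Fact p.Prime]

/-- the decomposition group is closed -/
lemma dec_closed [Algebra.IsIntegral F K] (V : ValuationSubring K) :
    IsClosed (Dec F V : Set (K ≃ₐ[F] K)) := by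
  have h1 : (Dec F V : Set (K ≃ₐ[F] K)) = ⋂ x : K, {σ | σ x ∈ V ↔ x ∈ V} := by
    ext σ
    rw [Set.mem_iInter]
    rfl
  rw [h1]
  refine isClosed_iInter fun x => ?_
  rw [← isOpen_compl_iff, isOpen_iff_forall_mem_open]
  intro σ hσ
  refine ⟨(fun τ => σ⁻¹ * τ) ⁻¹' (MulAction.stabilizer (K ≃ₐ[F] K) x : Set (K ≃ₐ[F] K)), ?_,
    (stabilizer_isOpen_of_isIntegral x).preimage (continuous_const.mul continuous_id), ?_⟩
  · intro τ hτ
    have h2 : (σ⁻¹ * τ) x = x := hτ
    have h3 : τ x = σ x := by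
      have := congrArg σ h2
      rw [← AlgEquiv.mul_apply, ← mul_assoc, mul_inv_cancel, one_mul] at this
      exact this
    intro h4
    apply hσ
    rw [Set.mem_ofPred_eq] at h4 ⊢
    rwa [h3] at h4
  · change (σ⁻¹ * σ) x = x
    rw [inv_mul_cancel]
    rfl

/-- a product over a period is invariant under shifts -/
lemma prod_shift {h : ℕ → K} (hper : ∀ n, h (n + p) = h n) (j : ℕ) :
    ∏ l ∈ Finset.range p, h (j + l) = ∏ l ∈ Finset.range p, h l := by
  induction j with
  | zero => simp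
  | succ j ih =>
    rw [← ih]
    have h1 := Finset.prod_range_succ (fun l => h (j + l)) p
    rw [Finset.prod_range_succ' (fun l => h (j + l)) p, add_zero, hper] at h1
    by_cases h0 : h j = 0
    · have h2 : ∀ i, ∃ l < p, h (i + l) = 0 := by
        intro i
        induction i with
        | zero =>
          refine ⟨j % p, Nat.mod_lt _ hp.out.pos, ?_⟩
          rw [zero_add]
          have h3 : ∀ k, h (j % p + k * p) = h (j % p) := by
            intro k
            induction k with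
            | zero => rw [zero_mul, add_zero]
            | succ k ih => rw [Nat.succ_mul, ← add_assoc, hper, ih]
          rw [← h3 (j / p), mul_comm, Nat.mod_add_div]
          exact h0
        | succ i ih =>
          obtain ⟨l, hl, hl0⟩ := ih
          rcases Nat.eq_zero_or_pos l with rfl | hpos
          · refine ⟨p - 1, Nat.sub_lt hp.out.pos one_pos, ?_⟩
            have : i + 1 + (p - 1) = i + p := by have := hp.out.pos; omega
            rw [this, hper]
            simpa using hl0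
          · refine ⟨l - 1, by omega, ?_⟩
            have : i + 1 + (l - 1) = i + l := by omega
            rw [this]
            exact hl0
      obtain ⟨l, hl, hl0⟩ := h2 (j + 1)
      obtain ⟨l', hl', hl0'⟩ := h2 j
      rw [Finset.prod_eq_zero (Finset.mem_range.2 hl) hl0,
        Finset.prod_eq_zero (Finset.mem_range.2 hl') hl0']
    · have h2 := mul_right_cancel₀ h0 h1
      rw [← h2]
      exact Finset.prod_congr rfl fun l _ => by rw [add_assoc, add_comm 1 l]

variable {ζ : F}

/-- the norm of an element fixed by the kernel of `chi a` is in `F` -/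
lemma norm_mem (hP : PCl p F K) (hζ : IsPrimitiveRoot ζ p) {a : Fˣ} {σ : K ≃ₐ[F] K}
    (hσ : chi p ζ a σ = 1) {e : K} (he : ∀ u : K ≃ₐ[F] K, chi p ζ a u = 0 → u e = e) :
    ∃ c : F, algebraMap F K c = ∏ l ∈ Finset.range p, (σ ^ l) e := by
  apply mem_of_fix hP hζ
  have hpow : ∀ n : ℕ, chi p ζ a (σ ^ n) = n := by
    intro n
    induction n with
    | zero => rw [pow_zero, chi_at_one hP hζ, Nat.cast_zero]
    | succ n ih => rw [pow_succ, chi_mul hP hζ, ih, hσ, Nat.cast_succ]
  have hdiff : ∀ g h : K ≃ₐ[F] K, chi p ζ a g = chi p ζ a h → g e = h e := by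
    intro g h hgh
    have h1 := he (h⁻¹ * g) (by rw [chi_mul hP hζ, chi_at_inv hP hζ, hgh, neg_add_cancel])
    have h2 := congrArg h h1
    rw [← AlgEquiv.mul_apply, ← mul_assoc, mul_inv_cancel, one_mul] at h2
    exact h2
  have hper : ∀ n, (σ ^ (n + p)) e = (σ ^ n) e := by
    intro n
    apply hdiff
    rw [hpow, hpow, Nat.cast_add, ZMod.natCast_self, add_zero]
  intro g
  rw [map_prod, ← prod_shift (h := fun n => (σ ^ n) e) hper (chi p ζ a g).val]
  refine Finset.prod_congr rfl fun l _ => ?_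
  rw [← AlgEquiv.mul_apply]
  apply hdiff
  rw [chi_mul hP hζ, hpow, hpow, Nat.cast_add, ZMod.natCast_zmod_val]

/-- products of one-units of level `|1 - ζ|^p` -/
lemma prod_one_add {V : ValuationSubring K} {r : V.ValueGroup} (hr : r ≤ 1) (hr0 : 0 < r)
    (f : ℕ → K)
    (n : ℕ) (hf : ∀ l < n, V.valuation (f l) < r) :
    V.valuation (∏ l ∈ Finset.range n, (1 + f l) - 1) < r := by
  induction n with
  | zero => simpa using hr0
  | succ n ih =>
    have h1 := ih fun l hl => hf l (Nat.lt_succ_of_lt hl)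
    have h2 := hf n (Nat.lt_succ_self n)
    rw [Finset.prod_range_succ]
    have e : (∏ l ∈ Finset.range n, (1 + f l)) * (1 + f n) - 1 =
        (∏ l ∈ Finset.range n, (1 + f l) - 1) * (1 + f n) + f n := by ring
    rw [e]
    refine lt_of_le_of_lt (V.valuation.map_add _ _) (max_lt ?_ h2)
    rw [map_mul, V.valuation.map_one_add_of_lt (lt_of_lt_of_le h2 hr), mul_one]
    exact h1

lemma isChi_eq (hP : PCl p F K) (hζ : IsPrimitiveRoot ζ p) {a : Fˣ} {χ : (K ≃ₐ[F] K) → ZMod p}
    (h : IsChi p ζ a χ) : χ = chi p ζ a := by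
  obtain ⟨α, hα⟩ := exists_kumroot hP a
  funext g
  exact (chi_eq hζ hα (h α hα g)).symm

lemma isChi_chi (hζ : IsPrimitiveRoot ζ p) (a : Fˣ) :
    IsChi p ζ a (chi p ζ a : (K ≃ₐ[F] K) → ZMod p) := fun _ hα g => chi_spec hζ hα g

/-- **NLIFT** -/
theorem nlift (hUP : S_PCLUP) (hP : PCl p F K) (hζ : IsPrimitiveRoot ζ p)
    {V : ValuationSubring K} (htop : Top ζ (V.comap (algebraMap F K))) {a b : Fˣ}
    (ha : a ∉ TR p ζ (V.comap (algebraMap F K))) (hloc : LocZ p ζ (Dec F V) a b) :
    ∃ t ∈ TR p ζ (V.comap (algebraMap F K)), Glo p K ζ a (b * t) := by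
  have hgal := hP.gal
  have hζ1 : ζ ≠ 1 := hζ.ne_one hp.out.one_lt
  have hZc := dec_closed (F := F) V
  have hGZ : Gal (Dec F V) K := (galF hP).sub _ hZc
  -- an element of the decomposition group with `chi a = 1`
  have hna : ¬ ∀ σ ∈ Dec F V, chi p ζ a σ = 0 := by
    rw [chi_zero_on hP hζ]
    intro h
    exact ha ((v3 hP hp.out hζ htop a).1 h)
  push Not at hna
  obtain ⟨σ₀, hσ₀, hσ₀1⟩ := hna
  obtain ⟨σ, hσ, hσ1⟩ := exists_chi_one hP hζ hσ₀ hσ₀1
  -- the local norm
  obtain ⟨ρ, hρ, hρ2⟩ := hloc _ _ (isChi_chi hζ a) (isChi_chi hζ b)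
  obtain ⟨ρ', hρ', hρ'2⟩ := cup_comm (Γ := Dec F V)
    (χ := fun g => chi p ζ a (g : K ≃ₐ[F] K)) (χ' := fun g => chi p ζ b (g : K ≃ₐ[F] K))
    (fun g k => chi_mul hP hζ a _ _) (fun g k => chi_mul hP hζ b _ _)
    ((chi_lc hP hζ a).comp_continuous continuous_subtype_val)
    ((chi_lc hP hζ b).comp_continuous continuous_subtype_val) ⟨ρ, hρ, hρ2⟩
  obtain ⟨β, hβ⟩ := exists_kroot hP (emb K b)
  obtain ⟨y, hy, hyN⟩ := norm_of_cup (Γ := Dec F V) hGZ (hz hζ K) (fun g => zfix g.1)
    (χ := fun g => chi p ζ a (g : K ≃ₐ[F] K)) (χb := fun g => chi p ζ b (g : K ≃ₐ[F] K))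
    (fun g k => chi_mul hP hζ a _ _)
    ((chi_lc hP hζ a).comp_continuous continuous_subtype_val) (σ := ⟨σ, hσ⟩) hσ1
    (β := β) (fun g => chi_kum hζ hβ g.1) hρ' hρ'2
  have hyN' : ∏ l ∈ Finset.range p, (σ ^ l) (vl y) = algebraMap F K (b : F) := by
    have h1 := congrArg vl hyN
    rw [hβ, vl_emb, vl_sum] at h1
    rw [← h1]
    refine Finset.prod_congr rfl fun l _ => ?_
    rw [vl_smul]
    rfl
  -- the extension `E = F(α)`
  obtain ⟨α, hα⟩ := exists_kumroot hP a
  obtain ⟨E, hE⟩ : ∃ E : IntermediateField F K, E = IntermediateField.adjoin F {α} := ⟨_, rfl⟩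
  have hαE : α ∈ E := by
    rw [hE]
    exact IntermediateField.mem_adjoin_simple_self F α
  have hPE : PCl p E K := hUP p F E K hP
  have hEfix : ∀ x ∈ E, ∀ u : K ≃ₐ[F] K, chi p ζ a u = 0 → u x = x := by
    intro x hx u hu
    rw [hE] at hx
    have h1 : IntermediateField.adjoin F {α} ≤
        IntermediateField.fixedField (Subgroup.zpowers u) := by
      rw [IntermediateField.adjoin_le_iff, Set.singleton_subset_iff, SetLike.mem_coe,
        IntermediateField.mem_fixedField_iff]
      intro g hg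
      have h2 : u α = α := by
        rw [chi_spec hζ hα, hu, ZMod.val_zero, pow_zero, one_mul]
      obtain ⟨k, rfl⟩ := Subgroup.mem_zpowers_iff.1 hg
      have h3 : u ∈ MulAction.stabilizer (K ≃ₐ[F] K) α := h2
      exact zpow_mem h3 k
    exact (IntermediateField.mem_fixedField_iff _ _).1 (h1 hx) u (Subgroup.mem_zpowers u)
  have hζE : IsPrimitiveRoot (algebraMap F E ζ) p :=
    hζ.map_of_injective (algebraMap F E).injective
  have htopE : Top (algebraMap F E ζ) (V.comap (algebraMap E K)) := top_up htop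
  obtain ⟨e, m, hm, hlt, hye⟩ := v1 hPE hp.out hζE.pow_eq_one (hζE.ne_one hp.out.one_lt) htopE
    (vl_ne y) (by
      intro τ hτ
      have h1 : resS F E K τ ∈ Dec F V := mem_Dec_resS.2 hτ
      have h2 : chi p ζ a (resS F E K τ) = 0 := by
        apply chi_eq hζ hα
        rw [ZMod.val_zero, pow_zero, one_mul]
        exact τ.commutes ⟨α, hαE⟩
      have h3 := hy ⟨_, h1⟩ h2
      exact congrArg vl h3)
  have hlt' : V.valuation m < V.valuation (algebraMap F K (1 - ζ)) ^ p := by
    have h1 : algebraMap E K (1 - algebraMap F E ζ) = algebraMap F K (1 - ζ) := by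
      rw [map_sub, map_sub, map_one, map_one]
      rfl
    rwa [h1] at hlt
  -- the global norm
  have heE : ∀ u : K ≃ₐ[F] K, chi p ζ a u = 0 → u (algebraMap E K (e : E)) = algebraMap E K e :=
    hEfix _ (e : E).2
  have he0 : algebraMap E K (e : E) ≠ 0 := by
    rw [ne_eq, map_eq_zero]
    exact e.ne_zero
  obtain ⟨c, hc⟩ := norm_mem hP hζ hσ1 heE
  have hc0 : c ≠ 0 := by
    rintro rfl
    rw [map_zero, eq_comm, Finset.prod_eq_zero_iff] at hc
    obtain ⟨l, -, hl⟩ := hc
    exact he0 ((map_eq_zero_iff _ (σ ^ l).injective).1 hl)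
  -- the one-unit
  have hprod : algebraMap F K (b : F) =
      algebraMap F K c * ∏ l ∈ Finset.range p, (1 + (σ ^ l) m) := by
    rw [← hyN', hc, ← Finset.prod_mul_distrib]
    refine Finset.prod_congr rfl fun l _ => ?_
    rw [hye, map_mul, map_add, map_one]
  have hr0 : 0 < V.valuation (algebraMap F K (1 - ζ)) ^ p := lt_of_le_of_lt zero_le' hlt'
  have hr1 : V.valuation (algebraMap F K (1 - ζ)) ^ p ≤ 1 := by
    apply pow_le_one'
    rw [le_one_iff]
    exact lam_le hp.out.ne_zero hζ.pow_eq_one _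
  have hsm : Sm p ζ (V.comap (algebraMap F K)) ((b : F) / c - 1) := by
    rw [← sm_iff, map_sub, map_one, map_div₀, hprod, mul_div_cancel_left₀]
    · apply prod_one_add hr1 hr0
      intro l _
      have h1 : σ ^ l ∈ Dec F V := pow_mem hσ l
      have h2 := (dec_lt h1 m (algebraMap F K ((1 - ζ) ^ p))).2 (by rw [map_pow, map_pow]; exact hlt')
      rw [(σ ^ l).commutes, map_pow, map_pow] at h2
      exact h2
    · rw [ne_eq, map_eq_zero]
      exact hc0
  refine ⟨Units.mk0 c hc0 / b, ?_, ?_⟩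
  · rw [← inv_mem_iff, inv_div, mem_TR hp.out.ne_zero hζ.pow_eq_one hζ1]
    refine ⟨1, (b : F) / c - 1, hsm, ?_⟩
    rw [Units.val_div_eq_div_val, Units.val_mk0, Units.val_one, one_pow, one_mul, add_sub_cancel]
  · rw [mul_div_cancel]
    intro χ ψ hχ hψ
    rw [isChi_eq hP hζ hχ, isChi_eq hP hζ hψ]
    obtain ⟨γ, hγ⟩ := exists_kroot hP (emb K (Units.mk0 c hc0))
    obtain ⟨ρ₁, h1, h2⟩ := cup_of_norm (galF hP) (hz hζ K) (fun g => zfix g) hP.root
      (χ := chi p ζ a) (χb := chi p ζ (Units.mk0 c hc0)) (fun g k => chi_mul hP hζ a _ _)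
      (chi_lc hP hζ a) hσ1 (β := γ) (y := ku _ he0) (fun g => chi_kum hζ hγ g) (by
        intro u hu
        apply vl_inj
        rw [vl_smul, vl_ku]
        exact heE u hu) (by
        apply vl_inj
        rw [hγ, vl_emb, vl_sum, Units.val_mk0, hc]
        refine Finset.prod_congr rfl fun l _ => ?_
        rw [vl_smul, vl_ku]
        rfl)
    exact cup_comm (fun g k => chi_mul hP hζ _ _ _) (fun g k => chi_mul hP hζ _ _ _)
      (chi_lc hP hζ _) (chi_lc hP hζ _) ⟨ρ₁, h1, h2⟩

end

theorem t_NLIFT (hN : S_NORMCUP) (hUP : S_PCLUP) : S_NLIFT := by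
  intro p hp F K _ _ _ ζ hζ hP W htop
  refine ⟨(t_V3 p F K ζ hζ hP W htop).1, ?_⟩
  intro a b hab
  by_cases ha : a ∈ TR p ζ (W.comap (algebraMap F K))
  · exact Or.inl ha
  · obtain ⟨t, ht, hG⟩ := nlift hUP hP hζ htop ha hab
    exact Or.inr (Or.inr ⟨t, ht, (hN p F K ζ hζ hP a (b * t)).2 hG⟩)

end Pool.Agent.ETC
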